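import Mathlib

/-!
# [H1 PS ABS] Cauchy-Schwarz (only Mathlib)

PROOF.  `∑ (G - M)^2 = ∑ G^2 - 2 M ∑ G + M^2 card T ≤ (1+e) X M^2 - 2 (1-e) X M^2 + X M^2 = 3 e X M^2`.
`S = ∑ π^2 ≤ ∑ π G = M ∑ π + ∑ π (G - M) ≤ M (1+e) X μ + ∑ |π| |G - M|`, and for `t > 0` (Young): `π |G - M| ≤ t π^2 + (G-M)^2/(4t)`, so
`(1 - t) S ≤ (1+e)^2 K X μ^2 + 3 e X M^2/(4 t) ≤ (1+e)^2 X μ^2 (K + 3 e K^2/(4t))`.  Take `e = t^2`, `t ≤ 1/2` small in terms of `K, ε`: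
`(1+t^2)^2 (K + t K^2)/(1 - t) ≤ K + ε`; e.g. `t = min (1/2) (ε/(100 K^2))` or by continuity at `t = 0`.
-/

set_option autoImplicit false

namespace Pool.Agent.H1.PS

open Finset

theorem abs_cs (K ε : ℝ) (hK : 1 ≤ K) (hε : 0 < ε) : ∃ e : ℝ, 0 < e ∧ e ≤ 1 / 2 ∧
    ∀ (T : Finset ℕ) (π G : ℕ → ℝ) (X M μ : ℝ), 0 ≤ X → 0 ≤ M → 0 ≤ μ → (T.card : ℝ) ≤ X →
      (∀ n ∈ T, 0 ≤ π n ∧ π n ≤ G n) → ∑ n ∈ T, G n ^ 2 ≤ (1 + e) * (X * M ^ 2) →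
      (1 - e) * (X * M) ≤ ∑ n ∈ T, G n → ∑ n ∈ T, π n ≤ (1 + e) * (X * μ) →
      M ≤ (1 + e) * (K * μ) → ∑ n ∈ T, π n ^ 2 ≤ (K + ε) * (X * μ ^ 2) := by
  obtain ⟨t, ht⟩ : ∃ t : ℝ, t = min (1 / 2) (ε / (9 * K ^ 2)) := ⟨_, rfl⟩
  have hK2 : 0 < 9 * K ^ 2 := by positivity
  have ht0 : 0 < t := by
    rw [ht]
    exact lt_min (by norm_num) (by positivity)
  have ht1 : t ≤ 1 / 2 := by
    rw [ht]
    exact min_le_left _ _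
  have ht2 : t * (9 * K ^ 2) ≤ ε := by
    rw [← le_div_iff₀ hK2, ht]
    exact min_le_right _ _
  refine ⟨t ^ 2, by positivity, by nlinarith, ?_⟩
  intro T π G X M μ hX hM hμ hT hπ h2 h1 hp hMK
  have hdev : ∑ n ∈ T, (G n - M) ^ 2 ≤ 3 * t ^ 2 * (X * M ^ 2) := by
    have e1 : ∑ n ∈ T, (G n - M) ^ 2 = ∑ n ∈ T, G n ^ 2 - 2 * M * ∑ n ∈ T, G n + M ^ 2 * T.card := by
      rw [mul_sum, ← sum_sub_distrib, mul_comm (M ^ 2), ← nsmul_eq_mul, ← sum_const,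
        ← sum_add_distrib]
      refine sum_congr rfl fun n _ => ?_
      ring
    rw [e1]
    have h3 : 2 * M * ((1 - t ^ 2) * (X * M)) ≤ 2 * M * ∑ n ∈ T, G n :=
      mul_le_mul_of_nonneg_left h1 (by linarith)
    have h4 : M ^ 2 * (T.card : ℝ) ≤ M ^ 2 * X := mul_le_mul_of_nonneg_left hT (by positivity)
    nlinarith
  obtain ⟨S, hS⟩ : ∃ S : ℝ, S = ∑ n ∈ T, π n ^ 2 := ⟨_, rfl⟩
  have hpt : ∀ n ∈ T, π n ^ 2 ≤ M * π n + t * π n ^ 2 + (G n - M) ^ 2 / (4 * t) := by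
    intro n hn
    obtain ⟨h5, h6⟩ := hπ n hn
    have h7 : π n * (G n - M) ≤ t * π n ^ 2 + (G n - M) ^ 2 / (4 * t) := by
      have h8 : t * π n ^ 2 + (G n - M) ^ 2 / (4 * t) - π n * (G n - M) =
          (2 * t * π n - (G n - M)) ^ 2 / (4 * t) := by
        field_simp
        ring
      have h9 : 0 ≤ (2 * t * π n - (G n - M)) ^ 2 / (4 * t) := by positivity
      linarith
    nlinarith
  have hsum : S ≤ M * ∑ n ∈ T, π n + t * S + (∑ n ∈ T, (G n - M) ^ 2) / (4 * t) := by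
    rw [hS, mul_sum, mul_sum, sum_div, ← sum_add_distrib, ← sum_add_distrib]
    exact sum_le_sum hpt
  obtain ⟨A, hA⟩ : ∃ A : ℝ, A = X * μ ^ 2 := ⟨_, rfl⟩
  have hA0 : 0 ≤ A := by
    rw [hA]
    positivity
  have hMp : M * ∑ n ∈ T, π n ≤ (1 + t ^ 2) ^ 2 * (K * A) := by
    calc M * ∑ n ∈ T, π n ≤ M * ((1 + t ^ 2) * (X * μ)) := mul_le_mul_of_nonneg_left hp hM
      _ ≤ ((1 + t ^ 2) * (K * μ)) * ((1 + t ^ 2) * (X * μ)) :=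
          mul_le_mul_of_nonneg_right hMK (by positivity)
      _ = (1 + t ^ 2) ^ 2 * (K * A) := by
          rw [hA]
          ring
  have hM2 : X * M ^ 2 ≤ (1 + t ^ 2) ^ 2 * (K ^ 2 * A) := by
    calc X * M ^ 2 ≤ X * ((1 + t ^ 2) * (K * μ)) ^ 2 := by
          refine mul_le_mul_of_nonneg_left ?_ hX
          exact pow_le_pow_left₀ hM hMK 2
      _ = (1 + t ^ 2) ^ 2 * (K ^ 2 * A) := by
          rw [hA]
          ring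
  have hD : (∑ n ∈ T, (G n - M) ^ 2) / (4 * t) ≤ 3 / 4 * t * ((1 + t ^ 2) ^ 2 * (K ^ 2 * A)) := by
    rw [div_le_iff₀ (by positivity)]
    calc ∑ n ∈ T, (G n - M) ^ 2 ≤ 3 * t ^ 2 * (X * M ^ 2) := hdev
      _ ≤ 3 * t ^ 2 * ((1 + t ^ 2) ^ 2 * (K ^ 2 * A)) := mul_le_mul_of_nonneg_left hM2 (by positivity)
      _ = 3 / 4 * t * ((1 + t ^ 2) ^ 2 * (K ^ 2 * A)) * (4 * t) := by ring
  rw [← hS, ← hA]
  have h10 : (1 - t) * S ≤ (1 + t ^ 2) ^ 2 * (K + 3 / 4 * t * K ^ 2) * A := by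
    nlinarith
  have h11 : (1 + t ^ 2) ^ 2 * (K + 3 / 4 * t * K ^ 2) ≤ (1 - t) * (K + ε) := by
    have h12 : (1 + t ^ 2) ^ 2 ≤ 1 + 2 * t := by
      have h20 : t ^ 2 ≤ t / 2 := by nlinarith
      have h21 : (1 + t ^ 2) ^ 2 ≤ (1 + t / 2) ^ 2 := pow_le_pow_left₀ (by positivity) (by linarith) 2
      nlinarith
    have h13 : K ≤ K ^ 2 := by nlinarith
    have h14 : 0 ≤ K + 3 / 4 * t * K ^ 2 := by positivity
    have h15 : (1 + t ^ 2) ^ 2 * (K + 3 / 4 * t * K ^ 2) ≤ (1 + 2 * t) * (K + 3 / 4 * t * K ^ 2) :=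
      mul_le_mul_of_nonneg_right h12 h14
    have h16 : t * K ≤ t * K ^ 2 := mul_le_mul_of_nonneg_left h13 ht0.le
    have h17 : t * (t * K ^ 2) ≤ 1 / 2 * (t * K ^ 2) :=
      mul_le_mul_of_nonneg_right ht1 (by positivity)
    have h18 : t * ε ≤ 1 / 2 * ε := mul_le_mul_of_nonneg_right ht1 hε.le
    nlinarith
  have h19 : (1 - t) * S ≤ (1 - t) * ((K + ε) * A) := by
    calc (1 - t) * S ≤ (1 + t ^ 2) ^ 2 * (K + 3 / 4 * t * K ^ 2) * A := h10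
      _ ≤ (1 - t) * (K + ε) * A := mul_le_mul_of_nonneg_right h11 hA0
      _ = (1 - t) * ((K + ε) * A) := by ring
  exact le_of_mul_le_mul_left h19 (by linarith)

end Pool.Agent.H1.PS
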