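import Pool.Agent.H1.PS.Def
import Pool.Agent.H96.UL.Law

/-!
# [H1 PS CLS] The law for one residue class on the sharp window `(⌊x⌋, 2⌊x⌋]`

PROOF: the proof of `Pool.Agent.H96.UL.app_fun` (H96/UL/Law.lean), shorter: no Gaussian weight, no monomials (`L = 0`), `Φ' = Φ`.
`fundamental (1/4000000) 1` (η = 1/2000, `η/2000`) gives `c0`; `a1 = min (c0/2) (1/20)` and small enough that `3 exp(-1/a) ≤ e/2` for `0 < a ≤ a1` (`exp (-1/a) ≤ a`).
`K = card ι ∈ {1, 2}`, `a ≤ c0/K`; `w0` from `fundamental`, also `2 K ≤ w0`.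
For `x` large `Dist (TT x) (Φ x) ((⌊x⌋₊ : ℝ) * EΦ x) (x^(η/64)) (x^a) (C x^(1-c)) (C x^(1-η/128))` from `IntD` with `X1 = ⌊x⌋₊`, `X2 = 2 ⌊x⌋₊ ≤ x^(1+θ)`.
`poly_gen` with `ω = ω' = Φ x`, `X = X' = ⌊x⌋₊ EΦ x ≥ 0`, `P = PP x a W`, `Y = x^(η/2000)`, `d = exp (-1/a)`, family `A = {()}` (κ = Unit), `q = 1`, `r = 0`
(`N % 1 = 0 % 1` always true), `W · 1 · x^(η/2000) ≤ x^(η/64)` as `W ≤ (log x)^B ≤ x^(η/500)`; the filter is `Adm` by `adm_iff`.
Errors: `3 d (⌊x⌋ E/W V) ≤ (e/2) x/W V E`; the others as in `app_fun`: with `V ≥ x^(-ε)`, `U ≤ x^ε` (`vb`), `E ≥ c1`: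
`C x^(1-c)/W · U`, `C x^(1-η/128) x^(η/2000)` are `≤ (e/8) x/W V c1` for large `x` (`W ≤ x^(η/500)`, `ε = min (c/8) (η/5000)`);
and `(x - ⌊x⌋) E/W V ≤ E V/W ≤ (e/8) x/W V E`.
-/

set_option autoImplicit false

namespace Pool.Agent.H1.PS

open Finset Filter Pool.Agent.H92.MM Pool.Agent.H95.FL Pool.Agent.H11.RG Pool.Agent.H96.UL

private theorem exp_small (a : ℝ) (ha : 0 < a) : Real.exp (-(1 / a)) ≤ a := by
  rw [Real.exp_neg, inv_eq_one_div, div_le_iff₀ (Real.exp_pos _)]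
  have h1 : 1 / a ≤ Real.exp (1 / a) := by
    have := Real.add_one_le_exp (1 / a)
    linarith
  calc (1 : ℝ) = a * (1 / a) := by field_simp
    _ ≤ a * Real.exp (1 / a) := mul_le_mul_of_nonneg_left h1 ha.le

open Classical in
theorem cls (e : ℝ) (he : 0 < e) : ∃ a1 : ℝ, 0 < a1 ∧ a1 ≤ 1 / 20 ∧ ∀ a : ℝ, 0 < a → a ≤ a1 →
    ∀ (ι : Type) [Fintype ι] [DecidableEq ι] [Nonempty ι], Fintype.card ι ≤ 2 →
    ∃ w0 : ℕ, ∀ w : ℕ, w0 ≤ w → ∀ (B : ℝ) (hf : ℝ → ι → ℕ) (Wf bf : ℝ → ℕ) (Φ : ℝ → ℕ → ℝ)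
      (EΦ : ℝ → ℝ) (c1 : ℝ), 0 < c1 → (∀ᶠ x : ℝ in atTop, c1 ≤ EΦ x) →
      (∀ x N, 0 ≤ Φ x N) → IntD (1 / 2000) a Φ EΦ →
      ∀ᶠ x : ℝ in atTop, Okk B w x (hf x) (Wf x) (bf x) →
        |∑ N ∈ (TT x).filter (fun N => Adm x a (hf x) (Wf x) (bf x) N), Φ x N -
          x / Wf x * vv (fun p => (Fintype.card ι : ℝ) / p) (PP x a (Wf x)) * EΦ x| ≤
        e * (x / Wf x * vv (fun p => (Fintype.card ι : ℝ) / p) (PP x a (Wf x)) * EΦ x) := by
  obtain ⟨η, hηd⟩ : ∃ η : ℝ, η = 1 / 2000 := ⟨_, rfl⟩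
  have hη : 0 < η := by rw [hηd]; norm_num
  obtain ⟨c0, hc0, hc01, hfund⟩ := fundamental (η / 2000) 1 (by positivity) one_pos
  refine ⟨min (min (c0 / 2) (1 / 20)) (e / 6), by positivity,
    (min_le_left _ _).trans (min_le_right _ _), ?_⟩
  intro a ha ha1 ι _ _ _ hι
  have ha2 : a ≤ c0 / 2 := ha1.trans ((min_le_left _ _).trans (min_le_left _ _))
  have ha3 : a ≤ 1 / 20 := ha1.trans ((min_le_left _ _).trans (min_le_right _ _))
  have ha4 : a ≤ e / 6 := ha1.trans (min_le_right _ _)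
  have hK1 : 1 ≤ Fintype.card ι := Fintype.card_pos
  have hK0 : (0 : ℝ) < (Fintype.card ι : ℝ) := by exact_mod_cast hK1
  have hK2 : (Fintype.card ι : ℝ) ≤ 2 := by exact_mod_cast hι
  have hac0 : a ≤ c0 / Fintype.card ι := by
    refine ha2.trans ?_
    exact div_le_div_of_nonneg_left hc0.le hK0 hK2
  obtain ⟨w0, hw0, hfund⟩ := hfund (Fintype.card ι) hK1
  obtain ⟨x0, hx0, hfund⟩ := hfund a ha hac0
  refine ⟨max w0 (2 * Fintype.card ι), ?_⟩
  intro w hw B hf Wf bf Φ E c1 hc1 hE hΦ hD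
  have hww0 : w0 ≤ w := (le_max_left _ _).trans hw
  obtain ⟨c, θ, C, hc, hθ, hC, hd⟩ := hD
  obtain ⟨ε, hεd⟩ : ∃ ε : ℝ, ε = min (c / 8) (η / 5000) := ⟨_, rfl⟩
  have hε : 0 < ε := hεd ▸ lt_min (by positivity) (by positivity)
  have hε1 : ε ≤ c / 8 := hεd ▸ min_le_left _ _
  have hε2 : ε ≤ η / 5000 := hεd ▸ min_le_right _ _
  have hw2K : 2 * Fintype.card ι ≤ w := (le_max_right _ _).trans hw
  have hvb := Pool.Agent.H96.UL.vb (Fintype.card ι) w hw2K a ε ha (by linarith) hε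
  have evW := log_lt B (η / 500) (by positivity)
  have evw := log_lt B a ha
  have ev0 : ∀ᶠ x : ℝ in atTop, (2 : ℝ) ≤ x ^ θ :=
    (tendsto_rpow_atTop hθ).eventually_ge_atTop _
  have ev1 : ∀ᶠ x : ℝ in atTop, 100 * C / (e * c1) ≤ x ^ (c / 2) :=
    (tendsto_rpow_atTop (by positivity)).eventually_ge_atTop _
  have ev2 : ∀ᶠ x : ℝ in atTop, 100 * C / (e * c1) ≤ x ^ (η / 500) :=
    (tendsto_rpow_atTop (by positivity)).eventually_ge_atTop _
  filter_upwards [hd, hE, hvb, evW, evw, ev0, ev1, ev2,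
    eventually_ge_atTop x0, eventually_ge_atTop (100 / e)] with x hd hE hvb evW0 evw ev0 ev1 ev2
      hxx0 hxe
  intro hok
  have hx3 : 3 ≤ x := hx0.trans hxx0
  have hx1 : 1 ≤ x := by linarith
  have hxp : 0 < x := by linarith
  obtain ⟨X, hXd⟩ : ∃ X : ℕ, X = ⌊x⌋₊ := ⟨_, rfl⟩
  have hXx : (X : ℝ) ≤ x := hXd ▸ Nat.floor_le hxp.le
  have hXx' : x < X + 1 := hXd ▸ Nat.lt_floor_add_one x
  have hT : TT x = Ioc X (2 * X) := by rw [TT, hXd]
  generalize hf x = h at hok ⊢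
  generalize Wf x = W at hok ⊢
  generalize bf x = b at hok ⊢
  have hW : 0 < W := hok.W_pos
  have hWR : (0 : ℝ) < W := by exact_mod_cast hW
  have evW : (W : ℝ) ≤ x ^ (η / 500) := hok.wle.trans evW0.le
  have hvb := hvb W hok.pw
  obtain ⟨P, hPd⟩ : ∃ P, P = PP x a W := ⟨_, rfl⟩
  have hPp : ∀ p ∈ P, p.Prime ∧ ¬ p ∣ W ∧ (p : ℝ) < x ^ a ∧ w < p := by
    intro p hp
    rw [hPd] at hp
    obtain ⟨h2, h3, h4⟩ := mem_PP.1 hp
    exact ⟨h3, h4, h2, prim_gt hok.pw h3 h4⟩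
  obtain ⟨fl, fu, hsand⟩ := hfund x hxx0 P (fun p hp =>
    ⟨(hPp p hp).1, by have := (hPp p hp).2.2.2; omega, (hPp p hp).2.2.1.le⟩)
  have hs := hsand (fun p => (Fintype.card ι : ℝ) / p) (fun p hp => by
    have h2 : (0 : ℝ) < p := by exact_mod_cast (hPp p hp).1.pos
    constructor
    · positivity
    · apply div_le_div_of_nonneg_right _ h2.le
      linarith)
  have hE0 : 0 < E x := hc1.trans_le hE
  -- distribution
  have D1 : Dist (TT x) (Φ x) ((X : ℝ) * E x) (x ^ (η / 64)) (x ^ a) (C * x ^ (1 - c))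
      (C * x ^ (1 - η / 128)) := by
    intro q r hq hQ hz
    have h2 : ((2 * X : ℕ) : ℝ) ≤ x ^ (1 + θ) := by
      push_cast
      rw [Real.rpow_add hxp, Real.rpow_one]
      calc (2 : ℝ) * X ≤ 2 * x := by linarith
        _ = x * 2 := by ring
        _ ≤ x * x ^ θ := mul_le_mul_of_nonneg_left ev0 hxp.le
    have h3 := hd X (2 * X) q r (by omega) h2 hq (by rw [← hηd]; exact hQ) hz
    rw [hT]
    have h4 : (((2 * X : ℕ) : ℝ) - X) / q * E x = X * E x / q := by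
      push_cast
      ring
    rw [h4] at h3
    refine h3.trans (le_of_eq ?_)
    rw [← hηd]
    ring
  have hzW : ∀ p : ℕ, p.Prime → p ∣ W → (p : ℝ) < x ^ a := by
    intro p hp hpW
    have h3 := hok.p_le hpW
    linarith
  have hdif : ∀ p ∈ P, ∀ i j, i ≠ j → ¬ (p : ℤ) ∣ (h i : ℤ) - h j :=
    fun p hp => hok.ndvd (hPp p hp).1 (hPp p hp).2.1
  have hXE : |(X : ℝ) * E x| ≤ (X : ℝ) * E x := by
    rw [abs_of_nonneg (by positivity)]
  have key := poly_gen D1 D1 (fun N _ => (abs_of_nonneg (hΦ x N)).le) hXE (by positivity)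
    (by positivity) h W b P hW
    (fun p hp => ⟨(hPp p hp).1, (hPp p hp).2.1⟩) hdif hzW
    (fun p hp => (hPp p hp).2.2.1) (x ^ (η / 2000))
    (Real.exp (-(1 / a))) fl fu hs (univ : Finset Unit) (fun _ => 1) (fun _ => 0)
    (fun _ _ => one_pos) (fun _ _ => Nat.coprime_one_right W)
    (fun k _ p hp hpd => (hPp p hp).1.one_lt.ne' (Nat.dvd_one.1 hpd))
    (fun k _ p hp hpd => absurd (Nat.dvd_one.1 hpd) hp.one_lt.ne')
    (fun k _ => by
      rw [Nat.cast_one, mul_one]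
      calc (W : ℝ) * x ^ (η / 2000)
          ≤ x ^ (η / 500) * x ^ (η / 2000) := by gcongr
        _ = x ^ (η / 500 + η / 2000) := by
            rw [Real.rpow_add hxp]
        _ ≤ x ^ (η / 64) := Real.rpow_le_rpow_of_exponent_le hx1 (by linarith))
  obtain ⟨V, hVd⟩ : ∃ V, V = vv (fun p => (Fintype.card ι : ℝ) / p) P := ⟨_, rfl⟩
  obtain ⟨U, hUd⟩ : ∃ U, U = ∏ p ∈ P, (1 + (Fintype.card ι : ℝ) / p) := ⟨_, rfl⟩
  rw [← hPd, ← hVd, ← hUd] at hvb
  rw [← hVd, ← hUd] at key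
  simp only [Finset.univ_unique, Finset.sum_singleton, Nat.mod_one, if_true, mul_one,
    Nat.cast_one, div_one, Finset.card_singleton] at key
  have hV0 : 0 < V := lt_of_lt_of_le (Real.rpow_pos_of_pos hxp _) hvb.1
  have hS : (TT x).filter (fun N => Adm x a h W b N) =
      (TT x).filter (fun N => N % W = b % W ∧ DP h P N = ∅) := by
    apply filter_congr
    intro N _
    rw [hPd]
    exact adm_iff x a h W b N hok.cop
  rw [hS, ← hPd, ← hVd]
  obtain ⟨S, hSd⟩ : ∃ S, S = ∑ N ∈ (TT x).filter (fun N => N % W = b % W ∧ DP h P N = ∅),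
      Φ x N := ⟨_, rfl⟩
  rw [← hSd] at key ⊢
  have hU0 : 0 ≤ U := by
    rw [hUd]
    positivity
  obtain ⟨M, hMd⟩ : ∃ M, M = x / W * V * E x := ⟨_, rfl⟩
  have hM0 : 0 < M := by rw [hMd]; positivity
  rw [← hMd]
  -- main error
  have hexp : Real.exp (-(1 / a)) ≤ e / 6 := (exp_small a ha).trans ha4
  have hX0 : (0 : ℝ) ≤ X := Nat.cast_nonneg X
  have b1 : 3 * (Real.exp (-(1 / a)) * (X * E x / W * V)) ≤ e / 2 * M := by
    have h2 : X * E x / W * V ≤ M := by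
      rw [hMd]
      have h3 : X * E x / W * V = X * (E x / W * V) := by ring
      have h4 : x / W * V * E x = x * (E x / W * V) := by ring
      rw [h3, h4]
      exact mul_le_mul_of_nonneg_right hXx (by positivity)
    have h3 : Real.exp (-(1 / a)) * (X * E x / W * V) ≤ e / 6 * M :=
      mul_le_mul hexp h2 (by positivity) (by positivity)
    linarith
  -- lower bound of the main term
  have hm1 : x ^ (1 - ε) * c1 / W ≤ M := by
    rw [hMd]
    have h2 : x ^ (1 - ε) = x * x ^ (-ε) := by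
      rw [sub_eq_add_neg, Real.rpow_add hxp, Real.rpow_one]
    rw [h2]
    calc x * x ^ (-ε) * c1 / W ≤ x * V * E x / W := by
          apply div_le_div_of_nonneg_right _ hWR.le
          exact mul_le_mul (mul_le_mul_of_nonneg_left hvb.1 hxp.le) hE hc1.le (by positivity)
      _ = x / W * V * E x := by ring
  have hec : 0 < e * c1 := by positivity
  have b2 : 3 * (C * x ^ (1 - c) / W * U) ≤ e / 10 * M := by
    have h3 : 100 * C ≤ e * c1 * x ^ (c / 2) := by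
      rw [div_le_iff₀ hec] at ev1
      linarith
    have h4 : x ^ (1 - c) * x ^ ε * x ^ (c / 2) ≤ x ^ (1 - ε) := by
      rw [← Real.rpow_add hxp, ← Real.rpow_add hxp]
      exact Real.rpow_le_rpow_of_exponent_le hx1 (by linarith)
    have h5 : C * x ^ (1 - c) / W * U ≤ C * x ^ (1 - c) / W * x ^ ε :=
      mul_le_mul_of_nonneg_left hvb.2 (by positivity)
    have h6 : 100 * (C * x ^ (1 - c) / W * x ^ ε) ≤ e * (x ^ (1 - ε) * c1 / W) := by
      calc 100 * (C * x ^ (1 - c) / W * x ^ ε) = 100 * C * (x ^ (1 - c) * x ^ ε / W) := by ring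
        _ ≤ e * c1 * x ^ (c / 2) * (x ^ (1 - c) * x ^ ε / W) :=
            mul_le_mul_of_nonneg_right h3 (by positivity)
        _ = e * c1 * (x ^ (1 - c) * x ^ ε * x ^ (c / 2)) / W := by ring
        _ ≤ e * c1 * x ^ (1 - ε) / W := by
            apply div_le_div_of_nonneg_right _ hWR.le
            exact mul_le_mul_of_nonneg_left h4 hec.le
        _ = e * (x ^ (1 - ε) * c1 / W) := by ring
    have h7 : e * (x ^ (1 - ε) * c1 / W) ≤ e * M := mul_le_mul_of_nonneg_left hm1 he.le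
    linarith [mul_pos he hM0]
  have b3 : 3 * (C * x ^ (1 - η / 128) * x ^ (η / 2000)) ≤ e / 10 * M := by
    have h3 : 100 * C ≤ e * c1 * x ^ (η / 500) := by
      rw [div_le_iff₀ hec] at ev2
      linarith
    have h4 : x ^ (1 - η / 128) * x ^ (η / 2000) * x ^ (η / 500) * W ≤ x ^ (1 - ε) := by
      calc x ^ (1 - η / 128) * x ^ (η / 2000) * x ^ (η / 500) * W
          ≤ x ^ (1 - η / 128) * x ^ (η / 2000) * x ^ (η / 500) * x ^ (η / 500) := by gcongr
        _ = x ^ (1 - η / 128 + η / 2000 + η / 500 + η / 500) := by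
            rw [← Real.rpow_add hxp, ← Real.rpow_add hxp, ← Real.rpow_add hxp]
        _ ≤ x ^ (1 - ε) := Real.rpow_le_rpow_of_exponent_le hx1 (by linarith)
    have h6 : 100 * (C * x ^ (1 - η / 128) * x ^ (η / 2000)) ≤ e * (x ^ (1 - ε) * c1 / W) := by
      calc 100 * (C * x ^ (1 - η / 128) * x ^ (η / 2000))
          = 100 * C * (x ^ (1 - η / 128) * x ^ (η / 2000)) := by ring
        _ ≤ e * c1 * x ^ (η / 500) * (x ^ (1 - η / 128) * x ^ (η / 2000)) :=
            mul_le_mul_of_nonneg_right h3 (by positivity)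
        _ = e * c1 * (x ^ (1 - η / 128) * x ^ (η / 2000) * x ^ (η / 500) * W) / W := by
            field_simp
        _ ≤ e * c1 * x ^ (1 - ε) / W := by
            apply div_le_div_of_nonneg_right _ hWR.le
            exact mul_le_mul_of_nonneg_left h4 hec.le
        _ = e * (x ^ (1 - ε) * c1 / W) := by ring
    have h7 : e * (x ^ (1 - ε) * c1 / W) ≤ e * M := mul_le_mul_of_nonneg_left hm1 he.le
    linarith [mul_pos he hM0]
  have b4 : |(X : ℝ) * E x / W * V - M| ≤ e / 10 * M := by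
    have h2 : (X : ℝ) * E x / W * V - M = -((x - X) * (E x / W * V)) := by
      rw [hMd]
      ring
    rw [h2, abs_neg, abs_of_nonneg (mul_nonneg (by linarith) (by positivity))]
    have h3 : 100 ≤ e * x := by
      rw [div_le_iff₀ he] at hxe
      linarith
    have h4 : M = x * (E x / W * V) := by
      rw [hMd]
      ring
    rw [h4]
    have h5 : 0 ≤ E x / W * V := by positivity
    calc (x - X) * (E x / W * V) ≤ (e / 10 * x) * (E x / W * V) :=
          mul_le_mul_of_nonneg_right (by linarith) h5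
      _ = e / 10 * (x * (E x / W * V)) := by ring
  have hfin : S - M = (S - X * E x / W * V) + (X * E x / W * V - M) := by ring
  rw [hfin]
  refine (abs_add_le _ _).trans ?_
  have hk : |S - X * E x / W * V| ≤ e / 2 * M + (e / 10 * M + e / 10 * M) := by
    refine key.trans ?_
    linarith
  linarith [mul_pos he hM0]

end Pool.Agent.H1.PS
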