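import Pool.Agent.H1.PS.Def

/-!
# [H1 PS CR] Counting residue classes (only Mathlib)

PROOF. Induction over the squarefree `W` (`Nat.recOnPosPrimePosCoprime` or induction on the finset of primes `W.primeFactors`, `W = ∏ p ∈ W.primeFactors, p`), or
directly with `ZMod.prodEquivPi` / `Nat.chineseRemainder`: `b ↦ (b mod p)_{p ∣ W}` is a bijection from `range W` to the product of the `range p`, and
`(b + i, W) = (b + j, W) = 1` iff for all `p ∣ W`: `p ∤ b + i`, `p ∤ b + j`.  So the number is `∏ p (p - ν_p)`, `ν_p` = number of `c < p` with `p ∣ c + i` or `p ∣ c + j`,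
which is `1` if `p ∣ i - j` and `2` otherwise, `p - ν_p = p (1 - ν_p/p)` and `∏ p = W`.
Step of the induction: `W = p W'`, `p ∤ W'`: for fixed `b' < W'` the `b < p W'` with `b ≡ b' (W')` are `b' + W' t`, `t < p`, and `t ↦ (b' + W' t) mod p` is a bijection of
`range p`.
-/

set_option autoImplicit false

namespace Pool.Agent.H1.PS

open Finset

private theorem cr_prime {p : ℕ} (hp : p.Prime) (i j : ℕ) :
    (((range p).filter (fun c => ¬ p ∣ c + i ∧ ¬ p ∣ c + j)).card : ℝ) = p - nu p i j := by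
  classical
  haveI : NeZero p := ⟨hp.ne_zero⟩
  have h1 : ((range p).filter (fun c => ¬ p ∣ c + i ∧ ¬ p ∣ c + j)).card =
      ((univ : Finset (ZMod p)) \ {-(i : ZMod p), -(j : ZMod p)}).card := by
    refine card_nbij' (fun c : ℕ => (c : ZMod p)) (fun z : ZMod p => z.val) ?_ ?_ ?_ ?_
    · intro c hc
      have hc1 := (mem_filter.1 (mem_coe.1 hc)).2
      rw [mem_coe, mem_sdiff, mem_insert, mem_singleton, not_or]
      refine ⟨mem_univ _, ?_, ?_⟩
      · intro h2
        apply hc1.1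
        have h2' : (c : ZMod p) = -(i : ZMod p) := h2
        rw [← ZMod.natCast_eq_zero_iff, Nat.cast_add, h2', neg_add_cancel]
      · intro h2
        apply hc1.2
        have h2' : (c : ZMod p) = -(j : ZMod p) := h2
        rw [← ZMod.natCast_eq_zero_iff, Nat.cast_add, h2', neg_add_cancel]
    · intro z hz
      rw [mem_coe, mem_sdiff, mem_insert, mem_singleton, not_or] at hz
      rw [mem_coe, mem_filter, mem_range]
      refine ⟨ZMod.val_lt z, ?_, ?_⟩
      · intro h2
        rw [← ZMod.natCast_eq_zero_iff, Nat.cast_add, ZMod.natCast_zmod_val] at h2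
        exact hz.2.1 (eq_neg_of_add_eq_zero_left h2)
      · intro h2
        rw [← ZMod.natCast_eq_zero_iff, Nat.cast_add, ZMod.natCast_zmod_val] at h2
        exact hz.2.2 (eq_neg_of_add_eq_zero_left h2)
    · intro c hc
      have hc1 := (mem_filter.1 (mem_coe.1 hc)).1
      exact ZMod.val_cast_of_lt (mem_range.1 hc1)
    · intro z _
      exact ZMod.natCast_zmod_val z
  have h3 : ((univ : Finset (ZMod p)) \ {-(i : ZMod p), -(j : ZMod p)}).card =
      p - ({-(i : ZMod p), -(j : ZMod p)} : Finset (ZMod p)).card := by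
    rw [card_sdiff_of_subset (subset_univ _), card_univ, ZMod.card]
  have h4 : ((p : ℤ) ∣ (i : ℤ) - j) ↔ (i : ZMod p) = (j : ZMod p) := by
    rw [← ZMod.intCast_zmod_eq_zero_iff_dvd, Int.cast_sub, Int.cast_natCast, Int.cast_natCast,
      sub_eq_zero]
  rw [h1, h3]
  have h2p := hp.two_le
  unfold nu
  by_cases h5 : (i : ZMod p) = (j : ZMod p)
  · rw [if_pos (h4.2 h5), h5, insert_eq_of_mem (mem_singleton_self _), card_singleton,
      Nat.cast_sub (by omega), Nat.cast_one]
  · rw [if_neg (fun h => h5 (h4.1 h)), card_pair (fun h => h5 (neg_inj.1 h)),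
      Nat.cast_sub h2p, Nat.cast_two]

private theorem cr_step {p W : ℕ} (hp : p.Prime) (hW : 0 < W) (hpW : Nat.Coprime p W) (i j : ℕ) :
    ((range (p * W)).filter (fun b => Nat.Coprime (b + i) (p * W) ∧
      Nat.Coprime (b + j) (p * W))).card =
    ((range p).filter (fun c => ¬ p ∣ c + i ∧ ¬ p ∣ c + j)).card *
      ((range W).filter (fun b => Nat.Coprime (b + i) W ∧ Nat.Coprime (b + j) W)).card := by
  classical
  rw [← card_product]
  have hmodp : ∀ b k : ℕ, p ∣ b % p + k ↔ p ∣ b + k := by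
    intro b k
    rw [Nat.dvd_iff_mod_eq_zero, Nat.dvd_iff_mod_eq_zero, Nat.add_mod, Nat.mod_mod,
      ← Nat.add_mod]
  have hmodW : ∀ b k : ℕ, Nat.Coprime (b % W + k) W ↔ Nat.Coprime (b + k) W := by
    intro b k
    have h1 : (b % W + k) % W = (b + k) % W := by
      rw [Nat.add_mod, Nat.mod_mod, ← Nat.add_mod]
    have h2 : b % W + k ≡ b + k [MOD W] := h1
    rw [Nat.coprime_iff_gcd_eq_one, Nat.coprime_iff_gcd_eq_one, h2.gcd_eq]
  have hcop : ∀ a : ℕ, Nat.Coprime a (p * W) ↔ ¬ p ∣ a ∧ Nat.Coprime a W := by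
    intro a
    rw [Nat.coprime_mul_iff_right, Nat.coprime_comm, hp.coprime_iff_not_dvd]
  refine card_nbij (fun b => (b % p, b % W)) ?_ ?_ ?_
  · intro b hb
    obtain ⟨hb1, hb2, hb3⟩ := mem_filter.1 (mem_coe.1 hb)
    rw [hcop] at hb2 hb3
    rw [mem_coe, mem_product, mem_filter, mem_filter, mem_range, mem_range]
    exact ⟨⟨Nat.mod_lt _ hp.pos, fun h => hb2.1 ((hmodp b i).1 h),
      fun h => hb3.1 ((hmodp b j).1 h)⟩, Nat.mod_lt _ hW, (hmodW b i).2 hb2.2,
      (hmodW b j).2 hb3.2⟩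
  · intro b hb c hc hbc
    have hb1 := mem_range.1 (mem_filter.1 (mem_coe.1 hb)).1
    have hc1 := mem_range.1 (mem_filter.1 (mem_coe.1 hc)).1
    have h1 : b % p = c % p := congrArg Prod.fst hbc
    have h2 : b % W = c % W := congrArg Prod.snd hbc
    have h3 : b ≡ c [MOD p * W] := (Nat.modEq_and_modEq_iff_modEq_mul hpW).1 ⟨h1, h2⟩
    have h4 : b % (p * W) = c % (p * W) := h3
    rwa [Nat.mod_eq_of_lt hb1, Nat.mod_eq_of_lt hc1] at h4
  · rintro ⟨u, v⟩ huv
    rw [mem_coe, mem_product, mem_filter, mem_filter, mem_range, mem_range] at huv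
    obtain ⟨⟨hu, hu1, hu2⟩, hv, hv1, hv2⟩ := huv
    obtain ⟨k, hk1, hk2⟩ := Nat.chineseRemainder hpW u v
    have hpos : 0 < p * W := Nat.mul_pos hp.pos hW
    have e1 : k % (p * W) % p = u := by
      rw [Nat.mod_mul_right_mod]
      have h5 : k % p = u % p := hk1
      rw [h5, Nat.mod_eq_of_lt hu]
    have e2 : k % (p * W) % W = v := by
      rw [Nat.mod_mul_left_mod]
      have h5 : k % W = v % W := hk2
      rw [h5, Nat.mod_eq_of_lt hv]
    refine ⟨k % (p * W), ?_, Prod.ext e1 e2⟩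
    rw [mem_coe, mem_filter, mem_range, hcop, hcop, ← hmodp _ i, ← hmodp _ j, ← hmodW _ i,
      ← hmodW _ j, e1, e2]
    exact ⟨Nat.mod_lt _ hpos, ⟨hu1, hv1⟩, hu2, hv2⟩

private theorem cr_aux (P : Finset ℕ) (hP : ∀ p ∈ P, p.Prime) (i j : ℕ) :
    (((range (∏ p ∈ P, p)).filter (fun b => Nat.Coprime (b + i) (∏ p ∈ P, p) ∧
      Nat.Coprime (b + j) (∏ p ∈ P, p))).card : ℝ) = ((∏ p ∈ P, p : ℕ) : ℝ) * sf P i j := by
  classical
  induction P using Finset.induction_on with
  | empty => simp [sf]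
  | insert p P hpP ih =>
    have hp : p.Prime := hP p (mem_insert_self _ _)
    have hP' : ∀ q ∈ P, q.Prime := fun q hq => hP q (mem_insert_of_mem hq)
    have hW : 0 < ∏ q ∈ P, q := prod_pos fun q hq => (hP' q hq).pos
    have hpW : Nat.Coprime p (∏ q ∈ P, q) := by
      apply Nat.Coprime.prod_right
      intro q hq
      rw [Nat.coprime_primes hp (hP' q hq)]
      rintro rfl
      exact hpP hq
    have hp0 : (p : ℝ) ≠ 0 := by exact_mod_cast hp.ne_zero
    rw [prod_insert hpP, cr_step hp hW hpW, Nat.cast_mul, ih hP', cr_prime hp, Nat.cast_mul]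
    unfold sf
    rw [prod_insert hpP]
    field_simp

theorem cr (W : ℕ) (hW : Squarefree W) (i j : ℕ) :
    (((range W).filter (fun b => Nat.Coprime (b + i) W ∧ Nat.Coprime (b + j) W)).card : ℝ) =
      W * sf W.primeFactors i j := by
  have h1 := cr_aux W.primeFactors (fun p hp => Nat.prime_of_mem_primeFactors hp) i j
  rw [Nat.prod_primeFactors_of_squarefree hW] at h1
  exact h1

end Pool.Agent.H1.PS
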