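import Pool.Agent.H96.UL.Fin
import Pool.Agent.H67.RG.Dn

/-!
# [H1 PS DEF] MP_31d0eb_nt, second moment of the primes in intervals of length `κ log X` with the constant `50/13`

`PS (50/13)` (H67/RG/Dn.lean) is the input of PrimesAtAllScales.  Plan: `1_prime(n) ≤ g(n)`, `g(n) = F(n)` if `n` has no prime
factor `< x^a`, else `0`; `F` = upper linear sieve of level `.549` in the primes `≥ x^a` (H89/P2 `upper_final`), with distribution of
`F(N+h) F(N+h')` (`IntD`, H11/PX, H96/UL/Pat).  The random variable `G(N) = ∑_{i ≤ h} g(N+i)`, `N ∈ (x, 2x]`, has mean `M = h m`,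
`m ≤ (50/13+)/log x`, and variance `o(M^2)`, so `E π^2 ≤ E π G ≤ M E π + o(1) ≤ (50/13+) (h/log x)^2`.

Modules: `Sg` (mean of the truncated singular series), `Cr` (counting residues), `Cls` (one class), `Uni` (uniformity), `Two` (sum over
the classes), `Wex` (the weight), `Mom` (moments of `G`), `Abs` (Cauchy-Schwarz), `Fin`.
-/

set_option autoImplicit false

namespace Pool.Agent.H1.PS

open Finset Filter Topology Pool.Agent.H11.RG Pool.Agent.H96.UL

/-- the window `(⌊x⌋, 2⌊x⌋]` -/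
noncomputable def TT (x : ℝ) : Finset ℕ := Ioc ⌊x⌋₊ (2 * ⌊x⌋₊)

/-- no prime factor `< x^a` -/
def Ro (x a : ℝ) (n : ℕ) : Prop := ∀ p : ℕ, p.Prime → p ∣ n → x ^ a ≤ (p : ℝ)

open Classical in
/-- the presieved weight -/
noncomputable def gg (F : ℝ → ℕ → ℝ) (x a : ℝ) (n : ℕ) : ℝ := if Ro x a n then F x n else 0

/-- the primes `< x^a` -/
noncomputable def PR (x a : ℝ) : Finset ℕ := (range ⌈x ^ a⌉₊).filter Nat.Prime

/-- number of residue classes of `-i, -j` modulo `p` -/
noncomputable def nu (p i j : ℕ) : ℝ := if (p : ℤ) ∣ (i : ℤ) - j then 1 else 2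

/-- truncated singular series times `v1^2` -/
noncomputable def sf (P : Finset ℕ) (i j : ℕ) : ℝ := ∏ p ∈ P, (1 - nu p i j / p)

noncomputable def v1 (P : Finset ℕ) : ℝ := ∏ p ∈ P, (1 - 1 / (p : ℝ))

/-- a nonnegative weight with known distribution of `F(N+h)` and `F(N+h) F(N+h')` in intervals and residue classes -/
structure Wt (a E : ℝ) (F : ℝ → ℕ → ℝ) (EF : ℝ → ℝ) : Prop where
  nonneg : ∀ x n, 0 ≤ F x n
  pos : 0 < E
  lim : Tendsto EF atTop (𝓝 E)
  one : ∀ h : ℝ → ℕ, Sml h → IntD (1 / 2000) a (fun x N => F x (N + h x)) EF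
  two : ∀ h h' : ℝ → ℕ, Sml h → Sml h' → (∀ᶠ x : ℝ in atTop, h x ≠ h' x) →
    IntD (1 / 2000) a (fun x N => F x (N + h x) * F x (N + h' x)) (fun x => EF x ^ 2)

end Pool.Agent.H1.PS
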