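import Pool.Agent.H1.PS.Mom
import Pool.Agent.H1.PS.Abs

/-!
# [H1 PS FIN] `PS (50/13)`

PROOF.  Given `ε`, `e` from `abs_cs (50/13) (ε/2)`, `(C, m, G)` from `mom (e/2)`, `κ0 = max 1 (4 C/e)`.  Let `κ ≥ κ0`, `X` large, `L = log X`, `κ L ≤ h ≤ κ L + 1 ≤ L^2`,
`x = X` (`⌊(X : ℝ)⌋₊ = X`, `TT X = Ioc X (2X)`, card `X`), `M = h m ≥ h/(2L) ≥ κ/2`, `C X M ≤ (e/2) X M^2` as `M ≥ κ/2 ≥ 2C/e`; so `∑ G^2 ≤ (1+e) X M^2`.
`μ = h/L`: `M ≤ (50/13) μ`.  `∑_{N ∈ Ioc X 2X} pc N h = ∑_{i ≤ h} #{primes in (X+i, 2X+i]} ≤ (1+e) X h/L`: `pnt_unif` with `n = X + i`, `m = X`, accuracy `e`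
(`(1/2) n ≤ X ≤ 3n`), `log (X + i) ≥ L`.  `abs_cs` with `π = pc · h` gives `∑_{Ioc X (2X)} pc^2 ≤ (50/13 + ε/2) X (h/L)^2`.  The term `n = X` of `Icc X (2X)` is `≤ h^2 ≤ (ε/2) X h^2/L^2`
for large `X` (`pc n h ≤ h`: `card_filter_le`).
-/

set_option autoImplicit false

namespace Pool.Agent.H1.PS

open Finset Filter Topology Pool.Agent.H5.Short Pool.Agent.H67.RG

private theorem shift_sum (X i : ℕ) :
    (∑ N ∈ Ioc X (2 * X), (if (N + i).Prime then (1 : ℝ) else 0)) = (pc (X + i) X : ℝ) := by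
  unfold pc
  rw [← sum_filter, sum_const, nsmul_eq_mul, mul_one]
  congr 1
  apply card_bij (fun N _ => N + i)
  · intro N hN
    rw [mem_filter, mem_Ioc] at hN ⊢
    exact ⟨⟨by omega, by omega⟩, hN.2⟩
  · intro a _ b _ h
    omega
  · intro n hn
    rw [mem_filter, mem_Ioc] at hn
    refine ⟨n - i, ?_, by omega⟩
    rw [mem_filter, mem_Ioc]
    have e : n - i + i = n := by omega
    rw [e]
    exact ⟨⟨by omega, by omega⟩, hn.2⟩

private theorem pc_le_len (n h : ℕ) : (pc n h : ℝ) ≤ h := by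
  have h1 : pc n h ≤ h := by
    unfold pc
    refine (card_filter_le _ _).trans ?_
    rw [Nat.card_Ioc]
    omega
  exact_mod_cast h1

theorem ps : PS (50 / 13) := by
  intro ε hε
  obtain ⟨e, he, he1, hA⟩ := abs_cs (50 / 13) (ε / 2) (by norm_num) (by linarith)
  obtain ⟨C, m, G, hC, hev⟩ := mom (e / 2) (by linarith) (by linarith)
  obtain ⟨T1, hT1⟩ := eventually_atTop.1 hev
  obtain ⟨X1, hX1⟩ := pnt_unif (1 / 2) e (by norm_num) he
  refine ⟨max 1 (4 * C / e), fun κ hκ => ?_⟩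
  have hκ1 : 1 ≤ κ := (le_max_left _ _).trans hκ
  have hκ2 : 4 * C / e ≤ κ := (le_max_right _ _).trans hκ
  have hκ2' : 4 * C ≤ κ * e := (div_le_iff₀ he).1 hκ2
  obtain ⟨T2, hT2⟩ : ∃ T2 : ℝ, ∀ T ≥ T2, (Real.log T) ^ 2 ≤ min (ε / 2) 1 * T := by
    have hc : (0 : ℝ) < min (ε / 2) 1 := lt_min (by linarith) one_pos
    have h5 := (Real.isLittleO_pow_log_id_atTop (n := 2)).bound hc
    obtain ⟨a, ha⟩ := eventually_atTop.1 (h5.and (eventually_ge_atTop 0))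
    refine ⟨a, fun T hT => ?_⟩
    obtain ⟨h6, h7⟩ := ha T hT
    rw [Real.norm_of_nonneg (by positivity), id, Real.norm_of_nonneg h7] at h6
    exact h6
  refine ⟨X1 + ⌈T1⌉₊ + ⌈T2⌉₊ + ⌈Real.exp (κ + 1)⌉₊, fun X hX h hh1 hh2 => ?_⟩
  have hXa : T1 ≤ X := (Nat.le_ceil _).trans (by exact_mod_cast (by omega : ⌈T1⌉₊ ≤ X))
  have hXb : T2 ≤ X := (Nat.le_ceil _).trans (by exact_mod_cast (by omega : ⌈T2⌉₊ ≤ X))
  have hXc : Real.exp (κ + 1) ≤ X :=
    (Nat.le_ceil _).trans (by exact_mod_cast (by omega : ⌈Real.exp (κ + 1)⌉₊ ≤ X))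
  have hX0 : (0 : ℝ) < X := lt_of_lt_of_le (Real.exp_pos _) hXc
  have hL : κ + 1 ≤ Real.log X := (Real.le_log_iff_exp_le hX0).2 hXc
  have hm := hT1 X hXa
  have hlog := hT2 X hXb
  obtain ⟨L, hLd⟩ : ∃ L, L = Real.log (X : ℝ) := ⟨_, rfl⟩
  rw [← hLd] at hh1 hh2 hL hm hlog ⊢
  obtain ⟨M0, hM0⟩ : ∃ M0, M0 = m (X : ℝ) := ⟨_, rfl⟩
  rw [← hM0] at hm
  obtain ⟨hm1, hm2, hm3⟩ := hm
  have hL0 : 0 < L := by linarith
  have hL1 : 1 ≤ L := by linarith
  have hhL : (h : ℝ) ≤ L ^ 2 := by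
    have h1 : κ * L + 1 ≤ (κ + 1) * L := by linarith
    have h2 : (κ + 1) * L ≤ L * L := mul_le_mul_of_nonneg_right hL hL0.le
    have h3 : L * L = L ^ 2 := by ring
    linarith
  obtain ⟨hG1, hG2, hG3⟩ := hm3 h hhL
  have hTT : TT (X : ℝ) = Ioc X (2 * X) := by
    unfold TT
    rw [Nat.floor_natCast]
  rw [hTT] at hG1 hG2 hG3
  have hh0 : (0 : ℝ) < h := lt_of_lt_of_le (by positivity) hh1
  have hlog1 : L ^ 2 ≤ X := hlog.trans (mul_le_of_le_one_left hX0.le (min_le_right _ _))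
  have hlog2 : L ^ 2 ≤ ε / 2 * X :=
    hlog.trans (mul_le_mul_of_nonneg_right (min_le_left _ _) hX0.le)
  have hhX : h ≤ X := by
    have : (h : ℝ) ≤ X := hhL.trans hlog1
    exact_mod_cast this
  -- size of `M = h m`
  have hmpos : 0 < M0 := by
    by_contra hcon
    rw [not_lt] at hcon
    have : M0 * L ≤ 0 := mul_nonpos_of_nonpos_of_nonneg hcon hL0.le
    linarith
  have hM : κ / 2 ≤ h * M0 := by
    have h1 : κ * L * M0 ≤ h * M0 := mul_le_mul_of_nonneg_right hh1 hmpos.le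
    have h2 : κ * (1 / 2) ≤ κ * (M0 * L) := mul_le_mul_of_nonneg_left hm2 (by linarith)
    have h3 : κ * L * M0 = κ * (M0 * L) := by ring
    linarith
  have hMpos : 0 < h * M0 := by positivity
  have hCM : C * (X * (h * M0)) ≤ e / 2 * (X * (h * M0) ^ 2) := by
    have h1 : C ≤ e / 2 * (h * M0) := by
      have h2 : e / 2 * (κ / 2) ≤ e / 2 * (h * M0) := mul_le_mul_of_nonneg_left hM (by linarith)
      linarith
    have h2 : 0 ≤ X * (h * M0) := by positivity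
    calc C * (X * (h * M0)) ≤ e / 2 * (h * M0) * (X * (h * M0)) := mul_le_mul_of_nonneg_right h1 h2
      _ = e / 2 * (X * (h * M0) ^ 2) := by ring
  have hsum : ∑ N ∈ Ioc X (2 * X), (pc N h : ℝ) ≤ (1 + e) * (X * (h / L)) := by
    have h1 : ∑ N ∈ Ioc X (2 * X), (pc N h : ℝ) = ∑ i ∈ Icc 1 h, (pc (X + i) X : ℝ) := by
      simp only [pc_eq_sum]
      rw [sum_comm]
      refine sum_congr rfl fun i _ => ?_
      rw [shift_sum, pc_eq_sum]
    rw [h1]
    have h2 : ∀ i ∈ Icc 1 h, (pc (X + i) X : ℝ) ≤ (1 + e) * X / L := by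
      intro i hi
      rw [mem_Icc] at hi
      have hi2 : (i : ℝ) ≤ X := by exact_mod_cast hi.2.trans hhX
      have hi0 : (0 : ℝ) ≤ i := Nat.cast_nonneg i
      have h3 := (hX1 (X + i) X (by omega) (by
        push_cast
        linarith) (by omega)).2
      have h4 : L ≤ Real.log ((X + i : ℕ) : ℝ) := by
        rw [hLd]
        refine Real.log_le_log hX0 ?_
        push_cast
        linarith
      rw [le_div_iff₀ hL0]
      have h5 : (pc (X + i) X : ℝ) * L ≤ (pc (X + i) X : ℝ) * Real.log ((X + i : ℕ) : ℝ) :=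
        mul_le_mul_of_nonneg_left h4 (Nat.cast_nonneg _)
      linarith
    refine (sum_le_sum h2).trans (le_of_eq ?_)
    rw [sum_const, Nat.card_Icc, nsmul_eq_mul]
    push_cast
    ring
  have hmain := hA (Ioc X (2 * X)) (fun N => (pc N h : ℝ)) (G X h) X (h * M0) (h / L) hX0.le
    hMpos.le (by positivity) (by
      rw [Nat.card_Ioc]
      exact_mod_cast (by omega : 2 * X - X ≤ X))
    (fun n hn => ⟨Nat.cast_nonneg _, hG1 n hn⟩) (by
      refine hG3.trans ?_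
      have e1 : (1 + e) * (X * (h * M0) ^ 2) = (1 + e / 2) * (X * (h * M0) ^ 2) +
        e / 2 * (X * (h * M0) ^ 2) := by ring
      rw [e1]
      linarith) (by
      refine le_trans ?_ hG2
      have : 0 ≤ X * (h * M0) := by positivity
      nlinarith) hsum (by
      have h1 : h * M0 * L ≤ h * (50 / 13) := by
        have := mul_le_mul_of_nonneg_left hm1 hh0.le
        linarith
      have h2 : h * M0 ≤ 50 / 13 * (h / L) := by
        have e1 : 50 / 13 * (h / L) = h * (50 / 13) / L := by ring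
        rw [e1, le_div_iff₀ hL0]
        exact h1
      have h3 : 0 ≤ 50 / 13 * (h / L) := by positivity
      nlinarith)
  have hsub : Icc X (2 * X) ⊆ insert X (Ioc X (2 * X)) := by
    intro n hn
    rw [mem_Icc] at hn
    rw [mem_insert, mem_Ioc]
    omega
  have hX' : X ∉ Ioc X (2 * X) := by
    rw [mem_Ioc]
    omega
  calc ∑ n ∈ Icc X (2 * X), (pc n h : ℝ) ^ 2 ≤ ∑ n ∈ insert X (Ioc X (2 * X)), (pc n h : ℝ) ^ 2 :=
        sum_le_sum_of_subset_of_nonneg hsub fun _ _ _ => sq_nonneg _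
    _ = (pc X h : ℝ) ^ 2 + ∑ n ∈ Ioc X (2 * X), (pc n h : ℝ) ^ 2 := sum_insert hX'
    _ ≤ ε / 2 * ((h : ℝ) ^ 2 * X / L ^ 2) + (50 / 13 + ε / 2) * (X * (h / L) ^ 2) := by
        refine add_le_add ?_ hmain
        have h1 : (pc X h : ℝ) ^ 2 ≤ (h : ℝ) ^ 2 :=
          pow_le_pow_left₀ (Nat.cast_nonneg _) (pc_le_len X h) 2
        refine h1.trans ?_
        have e1 : ε / 2 * ((h : ℝ) ^ 2 * X / L ^ 2) = (h : ℝ) ^ 2 * (ε / 2 * X / L ^ 2) := by ring
        rw [e1]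
        have h2 : 1 ≤ ε / 2 * X / L ^ 2 := by
          rw [le_div_iff₀ (by positivity), one_mul]
          exact hlog2
        have h3 : 0 ≤ (h : ℝ) ^ 2 := sq_nonneg _
        nlinarith
    _ = (50 / 13 + ε) * ((h : ℝ) ^ 2 * X / L ^ 2) := by
        rw [div_pow]
        ring

end Pool.Agent.H1.PS
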