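import Pool.Agent.H1.PS.Def

/-!
# [H1 PS SG] Mean of the truncated singular series (only Mathlib)

PROOF. For a finite set `P` of primes let `s_P(d) = ∏_{p ∈ P} (1 - (if p ∣ d then 1 else 2)/p) ≥ 0` (each factor is `≥ 0` as `p ≥ 2`) and for real
`t ≥ 0` let `H_P(t) = ∑_{d ∈ Ico 1 ⌈t⌉₊} 2 (t - d) s_P(d)`.  Claim: `H_P(t) ≤ t^2 v1(P)^2`.  Induction on `P`.
`P = ∅`: with `N = ⌈t⌉₊ - 1` (`N ≤ t ≤ N + 1`; `t = 0`: the sum is `0`): `∑_{d ≤ N} 2(t - d) = 2 N t - N (N+1) ≤ t^2`, since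
`t^2 - 2 N t + N^2 + N = (t-N)^2 + N ≥ 0`.
Step `P ∪ {p}`, `p ∉ P`: `s_{P+p}(d) = (1 - 2/p) s_P(d) + (1/p) s_P(d) [p ∣ d]`.  The `d < t` with `p ∣ d` are `d = p d'`, `1 ≤ d' < t/p`, `s_P(p d') = s_P(d')`
(for `q ∈ P`, `q ≠ p`: `q ∣ p d' ↔ q ∣ d'`), `2(t - p d') = p · 2 (t/p - d')`, so the second sum is `p H_P(t/p) / p`:
`H_{P+p}(t) = (1 - 2/p) H_P(t) + H_P(t/p) ≤ (1 - 2/p) t^2 v^2 + t^2 v^2/p^2 = t^2 v^2 (1 - 1/p)^2` (`1 - 2/p ≥ 0`).
Finally `∑_{i ≠ j ≤ h} sf P i j = ∑_{1 ≤ d < h} 2 (h - d) s_P(d) = H_P(h)`: `sf P i j = s_P(|i - j|)` (natural numbers: `p ∣ |i-j|`), and the number of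
`(i, j) ∈ [1,h]^2` with `i - j = d` is `h - d`, the same for `j - i = d`.
-/

set_option autoImplicit false

namespace Pool.Agent.H1.PS

open Finset

/-- the truncated singular series as a function of the difference -/
private noncomputable def ss (P : Finset ℕ) (d : ℕ) : ℝ :=
  ∏ p ∈ P, (1 - (if p ∣ d then 1 else 2) / (p : ℝ))

private noncomputable def HH (P : Finset ℕ) (t : ℝ) : ℝ :=
  ∑ d ∈ Ico 1 ⌈t⌉₊, 2 * (t - d) * ss P d

private theorem base_sum (t : ℝ) (N : ℕ) :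
    ∑ d ∈ Ico 1 (N + 1), 2 * (t - (d : ℝ)) = 2 * N * t - N * (N + 1) := by
  induction N with
  | zero => simp
  | succ N ih =>
    rw [sum_Ico_succ_top (by omega), ih]
    push_cast
    ring

private theorem base (t : ℝ) (M : ℕ) : ∑ d ∈ Ico 1 M, 2 * (t - (d : ℝ)) ≤ t ^ 2 := by
  rcases M with _ | N
  · simp only [zero_le, Ico_eq_empty_of_le, sum_empty]
    positivity
  · rw [base_sum]
    have h1 : (0 : ℝ) ≤ N := Nat.cast_nonneg N
    nlinarith [sq_nonneg (t - N)]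

private theorem ss_nonneg {P : Finset ℕ} (hP : ∀ p ∈ P, p.Prime) (d : ℕ) : 0 ≤ ss P d := by
  apply prod_nonneg
  intro p hp
  have h2 : (2 : ℝ) ≤ p := by exact_mod_cast (hP p hp).two_le
  have h3 : (if p ∣ d then (1 : ℝ) else 2) ≤ 2 := by split_ifs <;> norm_num
  have h4 : (if p ∣ d then (1 : ℝ) else 2) / (p : ℝ) ≤ 1 := by
    rw [div_le_one (by linarith)]
    linarith
  linarith

private theorem ss_insert {P : Finset ℕ} {p : ℕ} (hpP : p ∉ P) (d : ℕ) :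
    ss (insert p P) d = (1 - 2 / (p : ℝ)) * ss P d +
      (if p ∣ d then (1 / (p : ℝ)) * ss P d else 0) := by
  unfold ss
  rw [prod_insert hpP]
  split_ifs <;> ring

private theorem ss_mul {P : Finset ℕ} (hP : ∀ p ∈ P, p.Prime) {p : ℕ} (hp : p.Prime)
    (hpP : p ∉ P) (d : ℕ) : ss P (p * d) = ss P d := by
  unfold ss
  apply prod_congr rfl
  intro q hq
  have h1 : q ∣ p * d ↔ q ∣ d := by
    apply Nat.Coprime.dvd_mul_left
    rw [Nat.coprime_primes (hP q hq) hp]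
    rintro rfl
    exact hpP hq
  simp only [h1]

private theorem mult_set {p : ℕ} (hp : 0 < p) (t : ℝ) :
    (Ico 1 ⌈t⌉₊).filter (fun d => p ∣ d) = (Ico 1 ⌈t / p⌉₊).image (fun d => p * d) := by
  have hp0 : (0 : ℝ) < p := by exact_mod_cast hp
  ext d
  rw [mem_filter, mem_Ico, mem_image, Nat.lt_ceil]
  constructor
  · rintro ⟨⟨h1, h2⟩, ⟨k, rfl⟩⟩
    refine ⟨k, ?_, rfl⟩
    rw [mem_Ico, Nat.lt_ceil, lt_div_iff₀ hp0]
    refine ⟨?_, ?_⟩
    · rcases Nat.eq_zero_or_pos k with rfl | h3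
      · simp at h1
      · exact h3
    · push_cast at h2
      linarith
  · rintro ⟨k, hk, rfl⟩
    rw [mem_Ico, Nat.lt_ceil, lt_div_iff₀ hp0] at hk
    refine ⟨⟨Nat.mul_pos hp hk.1, ?_⟩, dvd_mul_right _ _⟩
    push_cast
    linarith [hk.2]

private theorem HH_insert {P : Finset ℕ} (hP : ∀ p ∈ P, p.Prime) {p : ℕ} (hp : p.Prime)
    (hpP : p ∉ P) (t : ℝ) :
    HH (insert p P) t = (1 - 2 / (p : ℝ)) * HH P t + HH P (t / p) := by
  have hp0 : (0 : ℝ) < p := by exact_mod_cast hp.pos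
  have h1 : HH (insert p P) t = (1 - 2 / (p : ℝ)) * HH P t +
      ∑ d ∈ Ico 1 ⌈t⌉₊, (if p ∣ d then 2 * (t - d) * ((1 / (p : ℝ)) * ss P d) else 0) := by
    unfold HH
    rw [mul_sum, ← sum_add_distrib]
    apply sum_congr rfl
    intro d _
    rw [ss_insert hpP]
    split_ifs <;> ring
  rw [h1, ← sum_filter, mult_set hp.pos, sum_image]
  · congr 1
    unfold HH
    apply sum_congr rfl
    intro d _
    rw [ss_mul hP hp hpP]
    push_cast
    field_simp
  · intro x _ y _ hxy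
    exact Nat.eq_of_mul_eq_mul_left hp.pos hxy

private theorem HH_le (P : Finset ℕ) (hP : ∀ p ∈ P, p.Prime) :
    ∀ t : ℝ, HH P t ≤ t ^ 2 * v1 P ^ 2 := by
  classical
  induction P using Finset.induction_on with
  | empty =>
    intro t
    unfold HH v1 ss
    simp only [prod_empty, mul_one, one_pow]
    exact base t _
  | insert p P hpP ih =>
    intro t
    have hp : p.Prime := hP p (mem_insert_self _ _)
    have hP' : ∀ q ∈ P, q.Prime := fun q hq => hP q (mem_insert_of_mem hq)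
    have h2 : (2 : ℝ) ≤ p := by exact_mod_cast hp.two_le
    have hp0 : (0 : ℝ) < p := by linarith
    have h3 : 0 ≤ 1 - 2 / (p : ℝ) := by
      have : 2 / (p : ℝ) ≤ 1 := by
        rw [div_le_one hp0]
        exact h2
      linarith
    rw [HH_insert hP' hp hpP]
    have h4 := mul_le_mul_of_nonneg_left (ih hP' t) h3
    have h5 := ih hP' (t / p)
    have h6 : v1 (insert p P) = (1 - 1 / (p : ℝ)) * v1 P := by
      unfold v1
      rw [prod_insert hpP]
    have h7 : t ^ 2 * v1 (insert p P) ^ 2 = (1 - 2 / (p : ℝ)) * (t ^ 2 * v1 P ^ 2) +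
        (t / p) ^ 2 * v1 P ^ 2 := by
      rw [h6]
      field_simp
      ring
    rw [h7]
    linarith

private theorem sf_gt {P : Finset ℕ} {i j : ℕ} (h : j < i) : sf P i j = ss P (i - j) := by
  unfold sf ss nu
  apply prod_congr rfl
  intro p _
  have h1 : ((p : ℤ) ∣ (i : ℤ) - j) ↔ p ∣ i - j := by
    rw [← Nat.cast_sub h.le, Int.natCast_dvd_natCast]
  simp only [h1]

private theorem sf_lt {P : Finset ℕ} {i j : ℕ} (h : i < j) : sf P i j = ss P (j - i) := by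
  unfold sf ss nu
  apply prod_congr rfl
  intro p _
  have h1 : ((p : ℤ) ∣ (i : ℤ) - j) ↔ p ∣ j - i := by
    rw [← dvd_neg, neg_sub, ← Nat.cast_sub h.le, Int.natCast_dvd_natCast]
  simp only [h1]

private theorem HH_succ (P : Finset ℕ) (h : ℕ) :
    HH P ((h + 1 : ℕ) : ℝ) = HH P (h : ℝ) + 2 * ∑ d ∈ Icc 1 h, ss P d := by
  unfold HH
  rw [Nat.ceil_natCast, Nat.ceil_natCast]
  have h1 : Icc 1 h = Ico 1 (h + 1) := by
    ext d
    rw [mem_Icc, mem_Ico]
    omega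
  have h2 : ∑ d ∈ Ico 1 (h + 1), 2 * ((h : ℝ) - d) * ss P d =
      ∑ d ∈ Ico 1 h, 2 * ((h : ℝ) - d) * ss P d := by
    rcases Nat.eq_zero_or_pos h with rfl | h0
    · simp
    · rw [sum_Ico_succ_top (by omega), sub_self, mul_zero, zero_mul, add_zero]
  rw [← h2, h1, mul_sum, ← sum_add_distrib]
  apply sum_congr rfl
  intro d _
  push_cast
  ring

private theorem refl_sum (P : Finset ℕ) (h : ℕ) :
    ∑ j ∈ Icc 1 h, ss P (h + 1 - j) = ∑ d ∈ Icc 1 h, ss P d := by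
  refine sum_nbij' (fun j => h + 1 - j) (fun j => h + 1 - j) ?_ ?_ ?_ ?_ ?_
  · intro j hj
    rw [mem_Icc] at hj ⊢
    omega
  · intro j hj
    rw [mem_Icc] at hj ⊢
    omega
  · intro j hj
    rw [mem_Icc] at hj
    omega
  · intro j hj
    rw [mem_Icc] at hj
    omega
  · intro j hj
    rfl

private theorem sum_eq (P : Finset ℕ) (h : ℕ) :
    ∑ i ∈ Icc 1 h, ∑ j ∈ (Icc 1 h).erase i, sf P i j = HH P (h : ℝ) := by
  classical
  induction h with
  | zero => simp [HH]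
  | succ h ih =>
    have h1 : Icc 1 (h + 1) = insert (h + 1) (Icc 1 h) := by
      ext d
      rw [mem_Icc, mem_insert, mem_Icc]
      omega
    have hn : h + 1 ∉ Icc 1 h := by
      rw [mem_Icc]
      omega
    rw [HH_succ, ← ih, h1, sum_insert hn, erase_insert hn]
    have h2 : ∀ i ∈ Icc 1 h, ∑ j ∈ (insert (h + 1) (Icc 1 h)).erase i, sf P i j =
        ss P (h + 1 - i) + ∑ j ∈ (Icc 1 h).erase i, sf P i j := by
      intro i hi
      have hne : i ≠ h + 1 := fun e => hn (e ▸ hi)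
      rw [erase_insert_of_ne (Ne.symm hne), sum_insert (fun e => hn (mem_of_mem_erase e)), sf_lt]
      rw [mem_Icc] at hi
      omega
    have h3 : ∑ j ∈ Icc 1 h, sf P (h + 1) j = ∑ j ∈ Icc 1 h, ss P (h + 1 - j) := by
      apply sum_congr rfl
      intro j hj
      apply sf_gt
      rw [mem_Icc] at hj
      omega
    rw [sum_congr rfl h2, sum_add_distrib, h3, refl_sum]
    ring

theorem sg (P : Finset ℕ) (hP : ∀ p ∈ P, p.Prime) (h : ℕ) :
    ∑ i ∈ Icc 1 h, ∑ j ∈ (Icc 1 h).erase i, sf P i j ≤ (h : ℝ) ^ 2 * v1 P ^ 2 := by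
  rw [sum_eq]
  exact HH_le P hP h

end Pool.Agent.H1.PS
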