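import Pool.Agent.H1.PS.Def
import Pool.Agent.H95.M3.Mer3
import Pool.Agent.H89.P2.Up

/-!
# [H1 PS WEX] The weight

PROOF.  As `wts_GU` in H96/UL/Main.lean and `pair_lawU_p2` in H96/UL/Fin.lean: `upper_final a (1/10000)` gives `J, W`; `δ = a/J`, `F x n = ev2 W (kk x δ n)`,
`EF x = mv2 W (ms x δ)`, `E = mv2 W mu` (`≥ a > 0`), `C = 2 exp(2/a)`.  `Wt.nonneg` is a clause of `upper_final`, `lim` = `mv2_tendsto`, `one` = `ev2_one_fun`, `two` = `ev2_fun` and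
`intd_congr`.  Upper bound `|ev2| ≤ 2 exp(2/a)` and `≥ 1` at primes: clauses of `upper_final`.  Last clause: `E ≤ (1 + 1/10000) 6.588 a`, and `pr_ge` with `ε = 1/10000`:
`1.718 a ≤ (e - 1 - ε) a ≤ pr x a = 1/(log x v1 (PR x a))`, `6.588 · 1.0001/1.718 ≤ 50/13`, `log x · v1 > 0`.  (See the last part of `wts_GU`.)
-/

set_option autoImplicit false

namespace Pool.Agent.H1.PS

open Finset Filter Topology Pool.Agent.H92.MM Pool.Agent.H89.P2 Pool.Agent.H11.PT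
  Pool.Agent.H11.RG Pool.Agent.H96.UL

theorem wex (a : ℝ) (ha : 0 < a) (ha1 : a ≤ 1 / 20) :
    ∃ (E C : ℝ) (F : ℝ → ℕ → ℝ) (EF : ℝ → ℝ), Wt a E F EF ∧ 0 < C ∧
      (∀ᶠ x : ℝ in atTop, ∀ n : ℕ, n.Prime → Real.sqrt x < (n : ℝ) → 1 ≤ F x n) ∧
      (∀ᶠ x : ℝ in atTop, ∀ n : ℕ, 0 < n → (n : ℝ) ≤ x ^ (1 + 1 / 1000 : ℝ) → F x n ≤ C) ∧
      (∀ᶠ x : ℝ in atTop, v1 (PR x a) * E * Real.log x ≤ 50 / 13) := by
  obtain ⟨J, W, hJ, _, h1, h2, h3, h4, ⟨x0, hx0⟩, h5, h6⟩ :=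
    upper_final a (1 / 10000) ha ha1 (by norm_num)
  have hJR : (0 : ℝ) < J := by exact_mod_cast hJ
  have hδ : 0 < a / J := by positivity
  have hok : Okw (a / J) a W := ⟨fun w hw j hj => (h1 w hw j hj).2.1, h2⟩
  refine ⟨mv2 W Pool.Agent.H89.P2.mu, 2 * Real.exp (2 / a),
    fun x n => ev2 W (kk x (a / J) n), fun x => mv2 W (ms x (a / J)), ⟨fun x n => h3 x n, by linarith,
      ?_, ?_, ?_⟩, by positivity, ?_, ?_, ?_⟩
  · exact mv2_tendsto (a / J) hδ W fun w hw j hj => lt_of_lt_of_le hJ (h1 w hw j hj).1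
  · intro h hh
    exact ev2_one_fun (a / J) a hδ ha (by linarith) W hok h hh
  · intro h h' hh hh' hne
    refine intd_congr (ev2_fun (a / J) a hδ ha (by linarith) W W hok hok h h' hh hh' hne)
      (fun x N _ => rfl) fun x => ?_
    rw [pow_two]
  · filter_upwards [eventually_gt_atTop (1 : ℝ)] with x hx n hn hnx
    exact h4 x hx n hn hnx
  · filter_upwards [eventually_ge_atTop x0] with x hx n hn hnx
    exact (le_abs_self _).trans (hx0 x hx n hn hnx)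
  · filter_upwards [Pool.Agent.H95.M3.pr_ge (1 / 10000) a (by norm_num) ha] with x hx
    have he : (2.7182818283 : ℝ) < Real.exp 1 := Real.exp_one_gt_d9
    have h9 : (1.718 : ℝ) * a ≤ (Real.exp 1 - 1 - 1 / 10000) * a := by
      apply mul_le_mul_of_nonneg_right _ ha.le
      linarith
    obtain ⟨q, hq⟩ : ∃ q, q = Real.log x * v1 (PR x a) := ⟨_, rfl⟩
    have h10 : Pool.Agent.H92.MM.pr x a = 1 / q := by
      rw [hq]
      rfl
    rw [h10] at hx
    have h11 : 1.718 * a ≤ 1 / q := h9.trans hx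
    have h12 : 0 < 1 / q := lt_of_lt_of_le (by positivity) h11
    have hq0 : 0 < q := one_div_pos.1 h12
    rw [le_div_iff₀ hq0] at h11
    have h13 : v1 (PR x a) * mv2 W Pool.Agent.H89.P2.mu * Real.log x =
        q * mv2 W Pool.Agent.H89.P2.mu := by
      rw [hq]
      ring
    rw [h13]
    calc q * mv2 W Pool.Agent.H89.P2.mu ≤ q * ((1 + 1 / 10000) * (6588 / 1000 * a)) :=
          mul_le_mul_of_nonneg_left h6 hq0.le
      _ ≤ 50 / 13 := by nlinarith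

end Pool.Agent.H1.PS
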