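import Pool.Agent.H1.PS.Two
import Pool.Agent.H1.PS.Sg
import Pool.Agent.H1.PS.Wex

/-!
# [H1 PS MOM] The moments of `G`

PROOF.  `a = a1` of `two (e/4)`, `(E, C0, F, EF)` from `wex a`, `m x = v1 (PR x a) * E` (`> 0`), `G x h N = ∑ i ∈ Icc 1 h, gg F x a (N + i)`, `C = 2 C0`.  `x` large.
* `m x log x ≤ 50/13`: `wex`.
* `1/2 ≤ m x log x`: by (1) of `two` with `i = 0`: `∑ N ∈ TT x, gg F x a N ≤ (1 + e/4) x m`, and the left side is at least the number of primes in `(⌊x⌋, 2⌊x⌋]` (a prime `n > √x`, `n ≥ x^a`, has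
  `Ro x a n` and `F x n ≥ 1`; `gg ≥ 0`), which is `≥ (9/10) x/log x` (`H5.Short.pnt_unif` with `n = m = ⌊x⌋₊`); `(9/10)/(1 + e/4) ≥ 1/2`.
* `pc N h ≤ G x h N`: `pc_eq_sum`, same pointwise inequality (`N + i > x > √x`).
* lower bound of `∑ G`: exchange the sums and (1) of `two`, `i ≤ h ≤ (log x)^2`.
* `∑ G^2 = ∑_i ∑_N gg(N+i)^2 + ∑_i ∑_{j ≠ i} ∑_N gg(N+i) gg(N+j)`: the first is `≤ C0 ∑_i ∑_N gg (N + i) ≤ C0 (1 + e/4) h x m ≤ 2 C0 h x m` (`0 ≤ gg ≤ C0` for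
  `0 < n ≤ 3 x ≤ x^(1+1/1000)`), the second `≤ (1 + e/4) x E^2 ∑_i ∑_{j ≠ i} sf (PR x a) i j ≤ (1 + e/4) x E^2 h^2 v1^2` by `sg`.
-/

set_option autoImplicit false

namespace Pool.Agent.H1.PS

open Finset Filter Topology Pool.Agent.H5.Short

theorem mom (e : ℝ) (he : 0 < e) (he1 : e ≤ 1 / 2) :
    ∃ (C : ℝ) (m : ℝ → ℝ) (G : ℝ → ℕ → ℕ → ℝ), 0 < C ∧ ∀ᶠ x : ℝ in atTop,
      m x * Real.log x ≤ 50 / 13 ∧ 1 / 2 ≤ m x * Real.log x ∧
      ∀ h : ℕ, (h : ℝ) ≤ Real.log x ^ 2 →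
        (∀ N ∈ TT x, (pc N h : ℝ) ≤ G x h N) ∧
        (1 - e) * (x * (h * m x)) ≤ ∑ N ∈ TT x, G x h N ∧
        ∑ N ∈ TT x, G x h N ^ 2 ≤ (1 + e) * (x * (h * m x) ^ 2) + C * (x * (h * m x)) := by
  classical
  obtain ⟨a, ha, ha1, hT⟩ := two (e / 4) (by positivity)
  obtain ⟨E, C0, F, EF, hW, hC0, hF1, hFC, hFm⟩ := wex a ha ha1
  have hT2 := hT a ha le_rfl E F EF hW
  refine ⟨2 * C0, fun x => v1 (PR x a) * E, fun x h N => ∑ i ∈ Icc 1 h, gg F x a (N + i),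
    by positivity, ?_⟩
  have hgg : ∀ x n, 0 ≤ gg F x a n := by
    intro x n
    unfold gg
    split_ifs
    · exact hW.nonneg x n
    · exact le_rfl
  have hPR : ∀ x, ∀ p ∈ PR x a, p.Prime := fun x p hp => (mem_filter.1 hp).2
  have hv1 : ∀ x, 0 < v1 (PR x a) := by
    intro x
    unfold v1
    refine prod_pos fun p hp => ?_
    have h1 : (2 : ℝ) ≤ p := by exact_mod_cast (hPR x p hp).two_le
    have h2 : 1 / (p : ℝ) ≤ 1 / 2 := one_div_le_one_div_of_le (by norm_num) h1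
    linarith
  have hev : ∀ᶠ x : ℝ in atTop, 2 * x + Real.log x ^ 2 ≤ x ^ (1 + 1 / 1000 : ℝ) := by
    have h1 := (Real.isLittleO_pow_log_id_atTop (n := 2)).bound one_pos
    have h2 : ∀ᶠ x : ℝ in atTop, (3 : ℝ) ≤ x ^ (1 / 1000 : ℝ) :=
      (tendsto_rpow_atTop (by norm_num : (0 : ℝ) < 1 / 1000)).eventually_ge_atTop 3
    filter_upwards [h1, h2, eventually_gt_atTop (0 : ℝ)] with x hx1 hx2 hx0
    rw [one_mul, id, Real.norm_eq_abs, Real.norm_eq_abs, abs_of_nonneg (sq_nonneg _), abs_of_pos hx0] at hx1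
    rw [Real.rpow_add hx0, Real.rpow_one]
    nlinarith
  obtain ⟨X0, hX0⟩ := pnt_unif (1 / 2) (1 / 10) (by norm_num) (by norm_num)
  have hfl : ∀ᶠ x : ℝ in atTop, X0 ≤ ⌊x⌋₊ := by
    filter_upwards [eventually_ge_atTop (X0 : ℝ)] with x hx
    exact Nat.le_floor hx
  filter_upwards [hT2, hF1, hFC, hFm, hev, hfl, eventually_ge_atTop (10 : ℝ)] with x hxT hx1 hxC hxm hxe
    hxf hx10
  have hx0 : 0 < x := by linarith
  have hlog : 0 < Real.log x := Real.log_pos (by linarith)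
  obtain ⟨m, hm⟩ : ∃ m : ℝ, m = v1 (PR x a) * E := ⟨_, rfl⟩
  have hm0 : 0 < m := by
    rw [hm]
    exact mul_pos (hv1 x) hW.pos
  have hfl1 : (⌊x⌋₊ : ℝ) ≤ x := Nat.floor_le hx0.le
  have hfl2 : x < ⌊x⌋₊ + 1 := Nat.lt_floor_add_one x
  -- the pointwise inequality
  have hpt : ∀ n : ℕ, x < n → (if n.Prime then (1 : ℝ) else 0) ≤ gg F x a n := by
    intro n hn
    by_cases hp : n.Prime
    · rw [if_pos hp]
      unfold gg
      rw [if_pos]
      · apply hx1 n hp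
        refine lt_of_le_of_lt ?_ hn
        rw [Real.sqrt_le_left hx0.le]
        nlinarith
      · intro p hpp hpn
        rw [(Nat.prime_dvd_prime_iff_eq hpp hp).1 hpn]
        refine le_trans ?_ hn.le
        calc x ^ a ≤ x ^ (1 : ℝ) := Real.rpow_le_rpow_of_exponent_le (by linarith) (by linarith)
          _ = x := Real.rpow_one x
    · rw [if_neg hp]
      exact hgg x n
  have hTTx : ∀ N ∈ TT x, x < (N : ℝ) ∧ (N : ℝ) ≤ 2 * x := by
    intro N hN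
    have h1 := mem_Ioc.1 hN
    have h2 : ((⌊x⌋₊ + 1 : ℕ) : ℝ) ≤ N := by exact_mod_cast h1.1
    have h3 : (N : ℝ) ≤ ((2 * ⌊x⌋₊ : ℕ) : ℝ) := by exact_mod_cast h1.2
    push_cast at h2 h3
    constructor
    · linarith
    · linarith
  have hmul : ∀ i : ℕ, (i : ℝ) ≤ Real.log x ^ 2 →
      (1 - e / 4) * (x * m) ≤ ∑ N ∈ TT x, gg F x a (N + i) ∧
      ∑ N ∈ TT x, gg F x a (N + i) ≤ (1 + e / 4) * (x * m) := by
    intro i hi
    have h1 := abs_le.1 (hxT.1 i hi)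
    have h2 : x * v1 (PR x a) * E = x * m := by
      rw [hm]
      ring
    rw [h2] at h1
    constructor <;> linarith [h1.1, h1.2]
  have hcard : ∀ h : ℕ, (((Icc 1 h).card : ℕ) : ℝ) = h := by
    intro h
    rw [Nat.card_Icc, Nat.add_sub_cancel]
  refine ⟨hxm, ?_, fun h hh => ⟨?_, ?_, ?_⟩⟩
  · show 1 / 2 ≤ v1 (PR x a) * E * Real.log x
    rw [← hm]
    have h1 := (hmul 0 (by push_cast; positivity)).2
    have h2 : (pc ⌊x⌋₊ ⌊x⌋₊ : ℝ) ≤ ∑ N ∈ TT x, gg F x a (N + 0) := by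
      unfold pc
      have h3 : Ioc ⌊x⌋₊ (⌊x⌋₊ + ⌊x⌋₊) = TT x := by
        unfold TT
        rw [two_mul]
      rw [h3, card_filter]
      push_cast
      exact sum_le_sum fun N hN => hpt N (hTTx N hN).1
    have h0 : (0 : ℝ) ≤ (⌊x⌋₊ : ℝ) := Nat.cast_nonneg _
    have h3 := (hX0 ⌊x⌋₊ ⌊x⌋₊ hxf (by linarith) (by omega)).1
    have h4 : Real.log (⌊x⌋₊ : ℝ) ≤ Real.log x := Real.log_le_log (by linarith) hfl1
    have h5 : (pc ⌊x⌋₊ ⌊x⌋₊ : ℝ) * Real.log (⌊x⌋₊ : ℝ) ≤ (1 + e / 4) * (x * m) * Real.log x := by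
      calc (pc ⌊x⌋₊ ⌊x⌋₊ : ℝ) * Real.log (⌊x⌋₊ : ℝ) ≤ (pc ⌊x⌋₊ ⌊x⌋₊ : ℝ) * Real.log x := by
            gcongr
        _ ≤ (1 + e / 4) * (x * m) * Real.log x := by
            gcongr
            exact h2.trans h1
    have h6 : (1 + e / 4) * (x * m) * Real.log x ≤ 9 / 8 * (x * (m * Real.log x)) := by
      have h7 : (1 + e / 4) * (x * m) * Real.log x = (1 + e / 4) * (x * (m * Real.log x)) := by ring
      rw [h7]
      gcongr
      linarith
    by_contra hcon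
    push Not at hcon
    have h7 : x * (m * Real.log x) ≤ x * (1 / 2) := by gcongr
    linarith
  · intro N hN
    rw [pc_eq_sum]
    refine sum_le_sum fun i _ => hpt (N + i) ?_
    have h1 := (hTTx N hN).1
    push_cast
    have h2 : (0 : ℝ) ≤ (i : ℝ) := Nat.cast_nonneg _
    linarith
  · show (1 - e) * (x * (h * (v1 (PR x a) * E))) ≤ ∑ N ∈ TT x, ∑ i ∈ Icc 1 h, gg F x a (N + i)
    rw [← hm, sum_comm]
    have h1 : ∑ i ∈ Icc 1 h, (1 - e / 4) * (x * m) ≤ ∑ i ∈ Icc 1 h, ∑ N ∈ TT x, gg F x a (N + i) := by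
      refine sum_le_sum fun i hi => (hmul i ?_).1
      have h2 : (i : ℝ) ≤ h := by exact_mod_cast (mem_Icc.1 hi).2
      linarith
    rw [sum_const, nsmul_eq_mul, hcard] at h1
    have h2 : 0 ≤ x * (h * m) := by positivity
    have h3 : (h : ℝ) * ((1 - e / 4) * (x * m)) = (1 - e / 4) * (x * (h * m)) := by ring
    rw [h3] at h1
    refine le_trans ?_ h1
    gcongr
    linarith
  · show ∑ N ∈ TT x, (∑ i ∈ Icc 1 h, gg F x a (N + i)) ^ 2 ≤
      (1 + e) * (x * (h * (v1 (PR x a) * E)) ^ 2) + 2 * C0 * (x * (h * (v1 (PR x a) * E)))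
    rw [← hm]
    have hbd : ∀ N ∈ TT x, ∀ i ∈ Icc 1 h, gg F x a (N + i) ≤ C0 := by
      intro N hN i hi
      have h1 := hTTx N hN
      have h2 : (i : ℝ) ≤ h := by exact_mod_cast (mem_Icc.1 hi).2
      unfold gg
      split_ifs
      · refine hxC (N + i) ?_ ?_
        · have : 1 ≤ i := (mem_Icc.1 hi).1
          omega
        · push_cast
          linarith
      · exact hC0.le
    have hexp : ∑ N ∈ TT x, (∑ i ∈ Icc 1 h, gg F x a (N + i)) ^ 2 =
        ∑ i ∈ Icc 1 h, (∑ N ∈ TT x, gg F x a (N + i) * gg F x a (N + i) +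
          ∑ j ∈ (Icc 1 h).erase i, ∑ N ∈ TT x, gg F x a (N + i) * gg F x a (N + j)) := by
      have h1 : ∀ N ∈ TT x, (∑ i ∈ Icc 1 h, gg F x a (N + i)) ^ 2 =
          ∑ i ∈ Icc 1 h, (gg F x a (N + i) * gg F x a (N + i) +
            ∑ j ∈ (Icc 1 h).erase i, gg F x a (N + i) * gg F x a (N + j)) := by
        intro N _
        rw [sq, sum_mul_sum]
        exact sum_congr rfl fun i hi => (add_sum_erase _ _ hi).symm
      rw [sum_congr rfl h1, sum_comm]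
      refine sum_congr rfl fun i _ => ?_
      rw [sum_add_distrib, sum_comm (s := TT x)]
    rw [hexp, sum_add_distrib]
    have hi2 : ∀ i ∈ Icc 1 h, (i : ℝ) ≤ Real.log x ^ 2 := by
      intro i hi
      have h2 : (i : ℝ) ≤ h := by exact_mod_cast (mem_Icc.1 hi).2
      linarith
    have hA : ∑ i ∈ Icc 1 h, ∑ N ∈ TT x, gg F x a (N + i) * gg F x a (N + i) ≤
        2 * C0 * (x * (h * m)) := by
      have h1 : ∀ i ∈ Icc 1 h, ∑ N ∈ TT x, gg F x a (N + i) * gg F x a (N + i) ≤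
          C0 * ((1 + e / 4) * (x * m)) := by
        intro i hi
        calc ∑ N ∈ TT x, gg F x a (N + i) * gg F x a (N + i)
            ≤ ∑ N ∈ TT x, C0 * gg F x a (N + i) :=
              sum_le_sum fun N hN => mul_le_mul_of_nonneg_right (hbd N hN i hi) (hgg _ _)
          _ = C0 * ∑ N ∈ TT x, gg F x a (N + i) := by rw [mul_sum]
          _ ≤ C0 * ((1 + e / 4) * (x * m)) := by
              gcongr
              exact (hmul i (hi2 i hi)).2
      refine (sum_le_sum h1).trans ?_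
      rw [sum_const, nsmul_eq_mul, hcard]
      have h2 : (h : ℝ) * (C0 * ((1 + e / 4) * (x * m))) = (1 + e / 4) * (C0 * (x * (h * m))) := by ring
      rw [h2, mul_assoc]
      gcongr
      linarith
    have hB : ∑ i ∈ Icc 1 h, ∑ j ∈ (Icc 1 h).erase i, ∑ N ∈ TT x, gg F x a (N + i) * gg F x a (N + j) ≤
        (1 + e) * (x * (h * m) ^ 2) := by
      have h1 : ∀ i ∈ Icc 1 h, ∀ j ∈ (Icc 1 h).erase i,
          ∑ N ∈ TT x, gg F x a (N + i) * gg F x a (N + j) ≤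
          (1 + e / 4) * x * E ^ 2 * sf (PR x a) i j := by
        intro i hi j hj
        have h2 := hxT.2 i j (ne_of_mem_erase hj).symm (hi2 i hi) (hi2 j (mem_of_mem_erase hj))
        calc _ ≤ _ := h2
          _ = _ := by ring
      refine (sum_le_sum fun i hi => sum_le_sum (h1 i hi)).trans ?_
      have h2 : ∑ i ∈ Icc 1 h, ∑ j ∈ (Icc 1 h).erase i, (1 + e / 4) * x * E ^ 2 * sf (PR x a) i j =
          (1 + e / 4) * x * E ^ 2 * ∑ i ∈ Icc 1 h, ∑ j ∈ (Icc 1 h).erase i, sf (PR x a) i j := by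
        rw [mul_sum]
        exact sum_congr rfl fun i _ => by rw [mul_sum]
      rw [h2]
      have h3 := sg (PR x a) (hPR x) h
      calc (1 + e / 4) * x * E ^ 2 * ∑ i ∈ Icc 1 h, ∑ j ∈ (Icc 1 h).erase i, sf (PR x a) i j
          ≤ (1 + e / 4) * x * E ^ 2 * ((h : ℝ) ^ 2 * v1 (PR x a) ^ 2) := by gcongr
        _ = (1 + e / 4) * (x * (h * m) ^ 2) := by
            rw [hm]
            ring
        _ ≤ (1 + e) * (x * (h * m) ^ 2) := by
            gcongr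
            linarith
    linarith

end Pool.Agent.H1.PS
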