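import Pool.Agent.H1.PS.Uni
import Pool.Agent.H1.PS.Cr

/-!
# [H1 PS TWO] Sum over the residue classes

PROOF.  `a1` from `uni e`, `w = max w0 2`, `B = 4`.  Let `x` be large (`log x ≥ primorial w`, `(log x)^4 < x^a`: `log_lt`).
(1) `W = primorial w ≤ (log x)^4`.  The `N ∈ TT x` with `N + i` free of primes `< x^a` are split by `b = N % W`, `b ∈ range W`; then
`(b + i, W) = 1` (a prime `p ∣ W` is `≤ (log x)^4 < x^a`, and `p ∣ b + i` gives `p ∣ N + i`), so only admissible `b` occur; for those the inner sum is the one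
of `uni` (`Okk`: `inj` trivial, `hh` by hypothesis, `sqf`: `primorial` is squarefree, `dif` empty, `cop`).  `∑ N gg = ∑_b ∑ ..`; number of `b` = `W sf W.primeFactors i i`
(`cr` with `j = i`), `nu p i i = 1`, and `sf W.primeFactors i i · vv (1/p) (PP x a W) = v1 (PR x a)`: `PR x a` is the disjoint union of `W.primeFactors` (all `< x^a`)
and `PP x a W`.
(2) `i ≠ j`: `W = ∏` of the primes `p ≤ w` or `p ∣ |i - j|` (a finset `S = (range (w+1)).filter Prime ∪ |i-j|.primeFactors`, `W = ∏ p ∈ S, p`), squarefree,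
`W ≤ primorial w · |i - j| ≤ (log x)^4`, `W.primeFactors = S`.  Again only admissible `b`, each with the inner sum `≤ (1+e) x/W vv(2/p)(PP x a W) E^2`, number of `b` =
`W sf S i j`, and for `p ∈ PP x a W`, `nu p i j = 2` (as `p ∤ i - j`), so the product is `sf (PR x a) i j`.
The two helper facts on `range W` are best isolated: `∑_{N ∈ T, Q N} f N = ∑_{b ∈ range W} ∑_{N ∈ T, N % W = b % W ∧ Q N} f N` (`sum_fiberwise_of_maps_to`).
-/

set_option autoImplicit false

namespace Pool.Agent.H1.PS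

open Finset Filter Topology Pool.Agent.H92.MM Pool.Agent.H95.FL Pool.Agent.H11.RG Pool.Agent.H96.UL

private theorem all_cls {ι : Type} [Fintype ι] (x a : ℝ) (h : ι → ℕ) (W : ℕ) (hW : 0 < W)
    (hWp : ∀ p : ℕ, p.Prime → p ∣ W → (p : ℝ) < x ^ a) (T : Finset ℕ) (f : ℕ → ℝ)
    [DecidablePred fun N => ∀ j, Ro x a (N + h j)]
    [DecidablePred fun b => ∀ j, Nat.Coprime (b + h j) W]
    [∀ b, DecidablePred fun N => Adm x a h W b N] :
    ∑ N ∈ T.filter (fun N => ∀ j, Ro x a (N + h j)), f N =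
      ∑ b ∈ (range W).filter (fun b => ∀ j, Nat.Coprime (b + h j) W),
        ∑ N ∈ T.filter (fun N => Adm x a h W b N), f N := by
  have hmap : ∀ N ∈ T.filter (fun N => ∀ j, Ro x a (N + h j)),
      N % W ∈ (range W).filter (fun b => ∀ j, Nat.Coprime (b + h j) W) := by
    intro N hN
    rw [mem_filter] at hN
    rw [mem_filter, mem_range]
    refine ⟨Nat.mod_lt _ hW, fun j => ?_⟩
    by_contra hc
    obtain ⟨p, hp, h1, h2⟩ := Nat.Prime.not_coprime_iff_dvd.1 hc
    have h3 : N % W + h j ≡ N + h j [MOD p] :=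
      ((Nat.mod_modEq N W).of_dvd h2).add_right _
    have h4 : p ∣ N + h j := (Nat.ModEq.dvd_iff h3 dvd_rfl).1 h1
    have h5 := hN.2 j p hp h4
    have h6 := hWp p hp h2
    linarith
  rw [← Finset.sum_fiberwise_of_maps_to hmap]
  refine sum_congr rfl fun b hb => ?_
  rw [mem_filter, mem_range] at hb
  rw [filter_filter]
  refine sum_congr ?_ fun _ _ => rfl
  apply filter_congr
  intro N _
  unfold Adm Ro
  rw [Nat.mod_eq_of_lt hb.1]
  tauto

private theorem prod_split (x a : ℝ) (W : ℕ) (hW : 0 < W)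
    (hWp : ∀ p : ℕ, p.Prime → p ∣ W → (p : ℝ) < x ^ a) (g : ℕ → ℝ) :
    (∏ p ∈ W.primeFactors, g p) * ∏ p ∈ PP x a W, g p = ∏ p ∈ PR x a, g p := by
  classical
  rw [← Finset.prod_filter_mul_prod_filter_not (PR x a) (fun p => p ∣ W)]
  congr 1
  · refine prod_congr ?_ fun _ _ => rfl
    ext p
    unfold PR
    rw [Nat.mem_primeFactors, mem_filter, mem_filter, mem_range, Nat.lt_ceil]
    constructor
    · rintro ⟨h1, h2, -⟩
      exact ⟨⟨hWp p h1 h2, h1⟩, h2⟩
    · rintro ⟨⟨-, h1⟩, h2⟩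
      exact ⟨h1, h2, hW.ne'⟩
  · refine prod_congr ?_ fun _ _ => rfl
    ext p
    unfold PR PP
    rw [mem_filter, mem_filter, mem_filter]
    tauto

private theorem nu_self (p i : ℕ) : nu p i i = 1 := by
  unfold nu
  rw [if_pos (by simp)]

/-- the product of the primes `≤ w` and the primes dividing `d` -/
private theorem mod_exists (w d : ℕ) (hd : 0 < d) : ∃ W : ℕ, Squarefree W ∧ primorial w ∣ W ∧
    W ≤ primorial w * d ∧ ∀ p : ℕ, p.Prime → p ∣ d → p ∣ W := by
  classical
  obtain ⟨S, hS⟩ : ∃ S : Finset ℕ, S = (range (w + 1)).filter Nat.Prime := ⟨_, rfl⟩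
  have hprim : primorial w = ∏ p ∈ S, p := by rw [hS]; rfl
  have hmem : ∀ p ∈ S ∪ d.primeFactors, p.Prime := by
    intro p hp
    rw [mem_union, hS, mem_filter, Nat.mem_primeFactors] at hp
    rcases hp with h | h
    · exact h.2
    · exact h.1
  refine ⟨∏ p ∈ S ∪ d.primeFactors, p, ?_, ?_, ?_, ?_⟩
  · refine Finset.squarefree_prod_of_pairwise_isCoprime (fun p hp q hq hpq => ?_)
      (fun p hp => (hmem p hp).squarefree)
    have h1 : Nat.Coprime p q := (Nat.coprime_primes (hmem p hp) (hmem q hq)).2 hpq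
    exact Nat.coprime_iff_isRelPrime.1 h1
  · rw [hprim]
    exact Finset.prod_dvd_prod_of_subset _ _ _ subset_union_left
  · have h1 := Finset.prod_union_inter (s₁ := S) (s₂ := d.primeFactors) (f := fun p : ℕ => p)
    have h2 : 1 ≤ ∏ p ∈ S ∩ d.primeFactors, p := by
      apply Finset.one_le_prod'
      intro p hp
      exact (hmem p (mem_union_left _ (mem_inter.1 hp).1)).one_lt.le
    have h3 : ∏ p ∈ d.primeFactors, p ≤ d := Nat.le_of_dvd hd (Nat.prod_primeFactors_dvd d)
    calc ∏ p ∈ S ∪ d.primeFactors, p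
        ≤ (∏ p ∈ S ∪ d.primeFactors, p) * ∏ p ∈ S ∩ d.primeFactors, p :=
          Nat.le_mul_of_pos_right _ h2
      _ = (∏ p ∈ S, p) * ∏ p ∈ d.primeFactors, p := h1
      _ ≤ primorial w * d := by
          rw [hprim]
          exact Nat.mul_le_mul_left _ h3
  · intro p hp hpd
    have h1 : p ∈ S ∪ d.primeFactors :=
      mem_union_right _ (Nat.mem_primeFactors.2 ⟨hp, hpd, hd.ne'⟩)
    exact Finset.dvd_prod_of_mem (fun p : ℕ => p) h1

theorem two (e : ℝ) (he : 0 < e) : ∃ a1 : ℝ, 0 < a1 ∧ a1 ≤ 1 / 20 ∧ ∀ a : ℝ, 0 < a → a ≤ a1 →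
    ∀ (E : ℝ) (F : ℝ → ℕ → ℝ) (EF : ℝ → ℝ), Wt a E F EF →
    ∀ᶠ x : ℝ in atTop,
      (∀ i : ℕ, (i : ℝ) ≤ Real.log x ^ 2 →
        |∑ N ∈ TT x, gg F x a (N + i) - x * v1 (PR x a) * E| ≤ e * (x * v1 (PR x a) * E)) ∧
      (∀ i j : ℕ, i ≠ j → (i : ℝ) ≤ Real.log x ^ 2 → (j : ℝ) ≤ Real.log x ^ 2 →
        ∑ N ∈ TT x, gg F x a (N + i) * gg F x a (N + j) ≤
          (1 + e) * (x * sf (PR x a) i j * E ^ 2)) := by
  classical
  obtain ⟨a1, ha1, ha1', H⟩ := uni e he
  refine ⟨a1, ha1, ha1', fun a ha haa E F EF hF => ?_⟩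
  obtain ⟨w, H⟩ := H a ha haa E F EF hF
  have H := H w le_rfl 4
  have evw := log_lt 4 a ha
  filter_upwards [H, evw, eventually_ge_atTop (1 : ℝ),
    Real.tendsto_log_atTop.eventually_ge_atTop (1 : ℝ),
    Real.tendsto_log_atTop.eventually_ge_atTop (primorial w : ℝ)] with x H evw hx1 hl1 hlw
  obtain ⟨H1, H2⟩ := H
  have hx0 : 0 < x := by linarith
  obtain ⟨l, hl⟩ : ∃ l, l = Real.log x := ⟨_, rfl⟩
  rw [← hl] at evw hl1 hlw ⊢
  have hl0 : 0 < l := by linarith
  have hl4 : l ^ (4 : ℝ) = l ^ 4 := by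
    rw [← Real.rpow_natCast]
    norm_num
  have hl24 : l ^ 2 ≤ l ^ (4 : ℝ) := by
    rw [hl4]
    exact pow_le_pow_right₀ hl1 (by norm_num)
  have hW4 : (primorial w : ℝ) * l ^ 2 ≤ l ^ (4 : ℝ) := by
    rw [hl4]
    calc (primorial w : ℝ) * l ^ 2 ≤ l * l ^ 2 := by gcongr
      _ = l ^ 3 := by ring
      _ ≤ l ^ 4 := pow_le_pow_right₀ hl1 (by norm_num)
  constructor
  · intro i hi
    obtain ⟨W, hWd⟩ : ∃ W, W = primorial w := ⟨_, rfl⟩
    have hW : 0 < W := hWd ▸ primorial_pos w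
    have hWR : (0 : ℝ) < W := by exact_mod_cast hW
    have hWl : (W : ℝ) ≤ l ^ (4 : ℝ) := by
      rw [hWd]
      refine le_trans ?_ hW4
      have : (1 : ℝ) ≤ l ^ 2 := one_le_pow₀ hl1
      exact le_mul_of_one_le_right (by positivity) this
    have hWp : ∀ p : ℕ, p.Prime → p ∣ W → (p : ℝ) < x ^ a := by
      intro p hp hd
      have h1 : (p : ℝ) ≤ W := by exact_mod_cast Nat.le_of_dvd hW hd
      linarith
    have hok : ∀ b : ℕ, Nat.Coprime (b + i) W → Okk 4 w x ![i] W b := by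
      intro b hb
      refine ⟨Function.injective_of_subsingleton _, ?_, hWd ▸ squarefree_primorial w,
        hWd ▸ dvd_rfl, by rw [← hl]; exact hWl, ?_, ?_⟩
      · intro j
        rw [Fin.fin_one_eq_zero j, ← hl]
        exact hi.trans hl24
      · intro j j' hjj
        exact absurd (Subsingleton.elim j j') hjj
      · intro j
        rw [Fin.fin_one_eq_zero j]
        exact hb
    have h1 : ∑ N ∈ TT x, gg F x a (N + i) =
        ∑ N ∈ (TT x).filter (fun N => ∀ j, Ro x a (N + (![i] : Fin 1 → ℕ) j)), F x (N + i) := by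
      rw [sum_filter]
      refine sum_congr rfl fun N _ => ?_
      unfold gg
      simp only [Fin.forall_fin_one, Matrix.cons_val_fin_one]
    rw [h1, all_cls x a ![i] W hW hWp (TT x) (fun N => F x (N + i))]
    obtain ⟨A, hA⟩ : ∃ A, A = (range W).filter
      (fun b => ∀ j, Nat.Coprime (b + (![i] : Fin 1 → ℕ) j) W) := ⟨_, rfl⟩
    rw [← hA]
    have hcard : (A.card : ℝ) = W * ∏ p ∈ W.primeFactors, (1 - 1 / (p : ℝ)) := by
      have h2 := cr W (hWd ▸ squarefree_primorial w) i i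
      have h3 : A = (range W).filter
          (fun b => Nat.Coprime (b + i) W ∧ Nat.Coprime (b + i) W) := by
        rw [hA]
        apply filter_congr
        intro b _
        simp only [Fin.forall_fin_one, Matrix.cons_val_fin_one, and_self]
      rw [h3, h2]
      unfold sf
      simp only [nu_self]
    obtain ⟨M, hM⟩ : ∃ M, M = x / W * Pool.Agent.H95.FL.vv (fun p => 1 / (p : ℝ)) (PP x a W) * E :=
      ⟨_, rfl⟩
    have hAM : x * v1 (PR x a) * E = ∑ _b ∈ A, M := by
      rw [sum_const, nsmul_eq_mul, hcard, hM]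
      unfold v1 Pool.Agent.H95.FL.vv
      rw [← prod_split x a W hW hWp (fun p => 1 - 1 / (p : ℝ))]
      field_simp
    rw [hAM, ← sum_sub_distrib]
    refine (abs_sum_le_sum_abs _ _).trans ?_
    rw [mul_sum]
    apply sum_le_sum
    intro b hb
    rw [hA, mem_filter] at hb
    have h4 := H1 i W b (hok b (by simpa using hb.2 0))
    rw [hM]
    exact h4
  · intro i j hij hi hj
    obtain ⟨d, hdd⟩ : ∃ d, d = ((i : ℤ) - j).natAbs := ⟨_, rfl⟩
    have hd : 0 < d := by
      rw [hdd, Int.natAbs_pos]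
      omega
    have hdl : (d : ℝ) ≤ l ^ 2 := by
      rcases le_total i j with h | h
      · have : d ≤ j := by omega
        exact le_trans (by exact_mod_cast this) hj
      · have : d ≤ i := by omega
        exact le_trans (by exact_mod_cast this) hi
    obtain ⟨W, hWs, hWw, hWd, hWdiv⟩ := mod_exists w d hd
    have hW : 0 < W := Nat.pos_of_ne_zero hWs.ne_zero
    have hWR : (0 : ℝ) < W := by exact_mod_cast hW
    have hWl : (W : ℝ) ≤ l ^ (4 : ℝ) := by
      have h1 : (W : ℝ) ≤ (primorial w : ℝ) * d := by exact_mod_cast hWd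
      refine (h1.trans ?_).trans hW4
      exact mul_le_mul_of_nonneg_left hdl (by positivity)
    have hWp : ∀ p : ℕ, p.Prime → p ∣ W → (p : ℝ) < x ^ a := by
      intro p hp hd
      have h1 : (p : ℝ) ≤ W := by exact_mod_cast Nat.le_of_dvd hW hd
      linarith
    have hdvd : ∀ p : ℕ, p.Prime → (p : ℤ) ∣ (i : ℤ) - j → p ∣ W := by
      intro p hp h1
      apply hWdiv p hp
      rw [hdd]
      exact Int.natCast_dvd.1 h1
    have hok : ∀ b : ℕ, Nat.Coprime (b + i) W → Nat.Coprime (b + j) W →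
        Okk 4 w x ![i, j] W b := by
      intro b hb hb'
      refine ⟨?_, ?_, hWs, hWw, by rw [← hl]; exact hWl, ?_, ?_⟩
      · intro s t hst
        fin_cases s <;> fin_cases t
        · rfl
        · exact absurd hst hij
        · exact absurd hst hij.symm
        · rfl
      · rw [Fin.forall_fin_two, ← hl]
        exact ⟨hi.trans hl24, hj.trans hl24⟩
      · intro s t hst p hp hpd
        fin_cases s <;> fin_cases t
        · exact absurd rfl hst
        · exact hdvd p hp hpd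
        · apply hdvd p hp
          rw [← dvd_neg]
          have h1 : -((i : ℤ) - j) = (j : ℤ) - i := by ring
          rw [h1]
          exact hpd
        · exact absurd rfl hst
      · rw [Fin.forall_fin_two]
        exact ⟨hb, hb'⟩
    have h1 : ∑ N ∈ TT x, gg F x a (N + i) * gg F x a (N + j) =
        ∑ N ∈ (TT x).filter (fun N => ∀ s, Ro x a (N + (![i, j] : Fin 2 → ℕ) s)),
          F x (N + i) * F x (N + j) := by
      rw [sum_filter]
      refine sum_congr rfl fun N _ => ?_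
      have h2 : (∀ s, Ro x a (N + (![i, j] : Fin 2 → ℕ) s)) ↔
          Ro x a (N + i) ∧ Ro x a (N + j) := by
        rw [Fin.forall_fin_two]
        rfl
      unfold gg
      by_cases h3 : Ro x a (N + i)
      · by_cases h4 : Ro x a (N + j)
        · rw [if_pos h3, if_pos h4, if_pos (h2.2 ⟨h3, h4⟩)]
        · rw [if_neg h4, if_neg (fun h => h4 (h2.1 h).2), mul_zero]
      · rw [if_neg h3, if_neg (fun h => h3 (h2.1 h).1), zero_mul]
    rw [h1, all_cls x a ![i, j] W hW hWp (TT x) (fun N => F x (N + i) * F x (N + j))]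
    obtain ⟨A, hA⟩ : ∃ A, A = (range W).filter
      (fun b => ∀ s, Nat.Coprime (b + (![i, j] : Fin 2 → ℕ) s) W) := ⟨_, rfl⟩
    rw [← hA]
    have hA2 : A = (range W).filter
        (fun b => Nat.Coprime (b + i) W ∧ Nat.Coprime (b + j) W) := by
      rw [hA]
      apply filter_congr
      intro b _
      rw [Fin.forall_fin_two]
      rfl
    have hcard : (A.card : ℝ) = W * ∏ p ∈ W.primeFactors, (1 - nu p i j / (p : ℝ)) := by
      rw [hA2]
      exact cr W hWs i j
    obtain ⟨M, hM⟩ : ∃ M, M = x / W * Pool.Agent.H95.FL.vv (fun p => 2 / (p : ℝ)) (PP x a W) *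
      E ^ 2 := ⟨_, rfl⟩
    have hAM : x * sf (PR x a) i j * E ^ 2 = ∑ _b ∈ A, M := by
      rw [sum_const, nsmul_eq_mul, hcard, hM]
      unfold sf Pool.Agent.H95.FL.vv
      rw [← prod_split x a W hW hWp (fun p => 1 - nu p i j / (p : ℝ))]
      have h3 : ∏ p ∈ PP x a W, (1 - nu p i j / (p : ℝ)) = ∏ p ∈ PP x a W, (1 - 2 / (p : ℝ)) := by
        apply prod_congr rfl
        intro p hp
        obtain ⟨-, h4, h5⟩ := mem_PP.1 hp
        unfold nu
        rw [if_neg (fun h => h5 (hdvd p h4 h))]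
      rw [h3]
      field_simp
    rw [hAM, mul_sum]
    apply sum_le_sum
    intro b hb
    rw [hA2, mem_filter] at hb
    have h4 := H2 i j W b (hok b hb.2.1 hb.2.2)
    rw [← hM] at h4
    have h5 := (abs_le.1 h4).2
    linarith

end Pool.Agent.H1.PS
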