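import Pool.Agent.H1.PS.Cls

/-!
# [H1 PS UNI] Uniformity in the shifts, the modulus and the class

PROOF.  `a1` from `cls (e/4)`; `w0` = maximum of the two `w0` of `cls` for `ι = Fin 1` and `ι = Fin 2`.
Pattern: `pair_lawU_of` in H96/UL/Fin.lean (`diag`).  For (2): `diag` with `τ = (Fin 2 → ℕ) × ℕ × ℕ` (or `ℕ × ℕ × ℕ × ℕ`), data function `f`; shifts `g x = (f x).1` if `Okk` holds,
else `![0, 1]`; they are `≤ (log x)^(max B 1)` for large `x`, so `Sml` (`sml_log`), and always different (`Okk.inj`), so `Wt.two` gives `IntD` for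
`Φ x N = F x (N + g x 0) * F x (N + g x 1)` with mean `EF x ^ 2 → E^2`, so `≥ E^2/2 = c1` for large `x`; `cls` gives the claim with `EF x ^ 2` instead of `E^2`, and
`|EF x ^2 - E^2| ≤ (e/4) E^2`, so the error is `≤ (e/4)(1 + e/4) + e/4 ≤ e` (for `e ≤ 1`; if `e > 1` use `min e 1`) times the main term (which is `≥ 0`: `vv (K/p) (PP x a W) ≥ 0`
because `p > w ≥ w0 ≥ 2` by `prim_gt`; choose `w0 ≥ 2`; `x/W ≥ 0`).  (1) in the same way with `Wt.one`.
`Fintype.card (Fin 1) = 1`, `Fintype.card (Fin 2) = 2`, `(N + ![i, j] 0) = N + i`.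
-/

set_option autoImplicit false

namespace Pool.Agent.H1.PS

open Finset Filter Topology Pool.Agent.H92.MM Pool.Agent.H95.FL Pool.Agent.H11.RG Pool.Agent.H96.UL

private theorem uni_fin (S M EF E e e' : ℝ) (hM : 0 ≤ M) (hE : 0 < E) (he' : 0 < e') (h1 : e' ≤ 1 / 4)
    (h2 : 4 * e' ≤ e) (h3 : |S - M * EF| ≤ e' * (M * EF)) (h4 : |EF - E| ≤ e' * E) :
    |S - M * E| ≤ e * (M * E) := by
  have h5 : S - M * E = (S - M * EF) + M * (EF - E) := by ring
  rw [h5]
  refine (abs_add_le _ _).trans ?_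
  rw [abs_mul, abs_of_nonneg hM]
  have h6 := abs_le.1 h4
  have h7 : M * |EF - E| ≤ M * (e' * E) := mul_le_mul_of_nonneg_left h4 hM
  have h8 : M * EF ≤ M * (2 * E) := mul_le_mul_of_nonneg_left (by nlinarith) hM
  have h9 : e' * (M * EF) ≤ e' * (M * (2 * E)) := mul_le_mul_of_nonneg_left h8 he'.le
  have h10 : 0 ≤ M * E := mul_nonneg hM hE.le
  have h11 : 4 * e' * (M * E) ≤ e * (M * E) := mul_le_mul_of_nonneg_right h2 h10
  nlinarith [mul_nonneg he'.le h10]

private theorem uni_vv (x a : ℝ) (w W : ℕ) (hw : 2 ≤ w) (hpw : primorial w ∣ W) (K : ℝ) (hK : K ≤ 2) :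
    0 ≤ vv (fun p => K / (p : ℝ)) (PP x a W) := by
  unfold vv
  refine prod_nonneg fun p hp => ?_
  obtain ⟨_, h3, h4⟩ := mem_PP.1 hp
  have h5 := prim_gt hpw h3 h4
  have h6 : (3 : ℝ) ≤ p := by
    have : 3 ≤ p := by omega
    exact_mod_cast this
  have h7 : K / (p : ℝ) ≤ 1 := by
    rw [div_le_one (by linarith)]
    linarith
  linarith

open Classical in
theorem uni (e : ℝ) (he : 0 < e) : ∃ a1 : ℝ, 0 < a1 ∧ a1 ≤ 1 / 20 ∧ ∀ a : ℝ, 0 < a → a ≤ a1 →
    ∀ (E : ℝ) (F : ℝ → ℕ → ℝ) (EF : ℝ → ℝ), Wt a E F EF →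
    ∃ w0 : ℕ, ∀ w : ℕ, w0 ≤ w → ∀ B : ℝ, ∀ᶠ x : ℝ in atTop,
      (∀ i W b : ℕ, Okk B w x ![i] W b →
        |∑ N ∈ (TT x).filter (fun N => Adm x a ![i] W b N), F x (N + i) -
          x / W * vv (fun p => 1 / (p : ℝ)) (PP x a W) * E| ≤
        e * (x / W * vv (fun p => 1 / (p : ℝ)) (PP x a W) * E)) ∧
      (∀ i j W b : ℕ, Okk B w x ![i, j] W b →
        |∑ N ∈ (TT x).filter (fun N => Adm x a ![i, j] W b N), F x (N + i) * F x (N + j) -
          x / W * vv (fun p => 2 / (p : ℝ)) (PP x a W) * E ^ 2| ≤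
        e * (x / W * vv (fun p => 2 / (p : ℝ)) (PP x a W) * E ^ 2)) := by
  obtain ⟨e', he'⟩ : ∃ e' : ℝ, e' = min e 1 / 4 := ⟨_, rfl⟩
  have he'0 : 0 < e' := by rw [he']; exact div_pos (lt_min he one_pos) (by norm_num)
  have he'1 : e' ≤ 1 / 4 := by
    rw [he']
    have := min_le_right e 1
    linarith
  have he'e : 4 * e' ≤ e := by
    rw [he']
    have := min_le_left e 1
    linarith
  obtain ⟨a1, ha10, ha11, hcls⟩ := cls e' he'0
  refine ⟨a1, ha10, ha11, fun a ha haa E F EF hW => ?_⟩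
  obtain ⟨w1, hc1⟩ := hcls a ha haa (Fin 1) (by simp)
  obtain ⟨w2, hc2⟩ := hcls a ha haa (Fin 2) (by simp)
  refine ⟨max (max w1 w2) 2, fun w hw B => ?_⟩
  have hw1 : w1 ≤ w := ((le_max_left _ _).trans (le_max_left _ _)).trans hw
  have hw2 : w2 ≤ w := ((le_max_right _ _).trans (le_max_left _ _)).trans hw
  have hw3 : 2 ≤ w := (le_max_right _ _).trans hw
  have hE := hW.pos
  have hlim1 : ∀ᶠ x : ℝ in atTop, |EF x - E| ≤ e' * E := by
    have h1 := Metric.tendsto_nhds.1 hW.lim (e' * E) (by positivity)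
    filter_upwards [h1] with x hx
    rw [Real.dist_eq] at hx
    exact hx.le
  have hlim2 : ∀ᶠ x : ℝ in atTop, |EF x ^ 2 - E ^ 2| ≤ e' * E ^ 2 := by
    have h1 := Metric.tendsto_nhds.1 (hW.lim.pow 2) (e' * E ^ 2) (by positivity)
    filter_upwards [h1] with x hx
    rw [Real.dist_eq] at hx
    exact hx.le
  have A1 : ∀ᶠ x : ℝ in atTop, ∀ t : ℕ × ℕ × ℕ, Okk B w x ![t.1] t.2.1 t.2.2 →
      |∑ N ∈ (TT x).filter (fun N => Adm x a ![t.1] t.2.1 t.2.2 N), F x (N + t.1) -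
          x / t.2.1 * vv (fun p => 1 / (p : ℝ)) (PP x a t.2.1) * E| ≤
        e * (x / t.2.1 * vv (fun p => 1 / (p : ℝ)) (PP x a t.2.1) * E) := by
    apply Pool.Agent.H96.UL.diag
    intro f
    obtain ⟨g, hg⟩ : ∃ g : ℝ → ℕ, ∀ x, g x =
        if Okk B w x ![(f x).1] (f x).2.1 (f x).2.2 then (f x).1 else 0 := ⟨_, fun _ => rfl⟩
    have hgb : ∀ᶠ x : ℝ in atTop, (g x : ℝ) ≤ Real.log x ^ B := by
      filter_upwards [Real.tendsto_log_atTop.eventually_ge_atTop (1 : ℝ)] with x hx1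
      rw [hg]
      split_ifs with hok
      · have h1 := hok.hh 0
        simpa using h1
      · rw [Nat.cast_zero]
        exact Real.rpow_nonneg (by linarith) _
    have hint := hW.one g (sml_log _ hgb)
    have hc := hc1 w hw1 B (fun x => ![(f x).1]) (fun x => (f x).2.1) (fun x => (f x).2.2)
      (fun x N => F x (N + g x)) EF (E / 2) (by linarith) (by
        filter_upwards [hlim1] with x hx
        have h1 := (abs_le.1 hx).1
        nlinarith) (fun x N => hW.nonneg _ _) hint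
    filter_upwards [hc, hlim1, eventually_ge_atTop (1 : ℝ)] with x hc hl hx1 hok
    have h1 := hc hok
    have hgx : g x = (f x).1 := by rw [hg, if_pos hok]
    rw [hgx] at h1
    have h2 : ((Fintype.card (Fin 1) : ℕ) : ℝ) = 1 := by simp
    rw [h2] at h1
    have hM : 0 ≤ x / ((f x).2.1 : ℝ) * vv (fun p => 1 / (p : ℝ)) (PP x a (f x).2.1) :=
      mul_nonneg (div_nonneg (by linarith) (Nat.cast_nonneg _))
        (uni_vv x a w _ hw3 hok.pw 1 (by norm_num))
    exact uni_fin _ _ _ _ _ _ hM hE he'0 he'1 he'e h1 hl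
  have A2 : ∀ᶠ x : ℝ in atTop, ∀ t : ℕ × ℕ × ℕ × ℕ, Okk B w x ![t.1, t.2.1] t.2.2.1 t.2.2.2 →
      |∑ N ∈ (TT x).filter (fun N => Adm x a ![t.1, t.2.1] t.2.2.1 t.2.2.2 N),
          F x (N + t.1) * F x (N + t.2.1) -
          x / t.2.2.1 * vv (fun p => 2 / (p : ℝ)) (PP x a t.2.2.1) * E ^ 2| ≤
        e * (x / t.2.2.1 * vv (fun p => 2 / (p : ℝ)) (PP x a t.2.2.1) * E ^ 2) := by
    apply Pool.Agent.H96.UL.diag
    intro f
    obtain ⟨g, hg⟩ : ∃ g : ℝ → Fin 2 → ℕ, ∀ x, g x =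
        if Okk B w x ![(f x).1, (f x).2.1] (f x).2.2.1 (f x).2.2.2 then ![(f x).1, (f x).2.1]
        else ![0, 1] := ⟨_, fun _ => rfl⟩
    have hgb : ∀ j, ∀ᶠ x : ℝ in atTop, (g x j : ℝ) ≤ Real.log x ^ (max B 1) := by
      intro j
      filter_upwards [Real.tendsto_log_atTop.eventually_ge_atTop (1 : ℝ)] with x hx1
      rw [hg]
      split_ifs with hok
      · exact (hok.hh j).trans (Real.rpow_le_rpow_of_exponent_le hx1 (le_max_left _ _))
      · have h1 : (1 : ℝ) ≤ Real.log x ^ (max B 1) :=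
          Real.one_le_rpow hx1 (zero_le_one.trans (le_max_right _ _))
        fin_cases j
        · show (((0 : ℕ)) : ℝ) ≤ _
          rw [Nat.cast_zero]
          linarith
        · show (((1 : ℕ)) : ℝ) ≤ _
          rw [Nat.cast_one]
          exact h1
    have hne : ∀ x, g x 0 ≠ g x 1 := by
      intro x
      rw [hg]
      split_ifs with hok
      · intro h1
        have h2 := hok.inj h1
        exact absurd h2 (by decide)
      · intro h1
        exact absurd h1 (by decide)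
    have hint := hW.two (fun x => g x 0) (fun x => g x 1) (sml_log _ (hgb 0)) (sml_log _ (hgb 1))
      (Filter.Eventually.of_forall hne)
    have hc := hc2 w hw2 B (fun x => ![(f x).1, (f x).2.1]) (fun x => (f x).2.2.1)
      (fun x => (f x).2.2.2) (fun x N => F x (N + g x 0) * F x (N + g x 1)) (fun x => EF x ^ 2)
      (E ^ 2 / 2) (by positivity) (by
        filter_upwards [hlim2] with x hx
        have h1 := (abs_le.1 hx).1
        have h2 : 0 < E ^ 2 := by positivity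
        nlinarith) (fun x N => mul_nonneg (hW.nonneg _ _) (hW.nonneg _ _)) hint
    filter_upwards [hc, hlim2, eventually_ge_atTop (1 : ℝ)] with x hc hl hx1 hok
    have h1 := hc hok
    have hgx : g x = ![(f x).1, (f x).2.1] := by rw [hg, if_pos hok]
    rw [hgx] at h1
    have h2 : ((Fintype.card (Fin 2) : ℕ) : ℝ) = 2 := by simp
    rw [h2] at h1
    have hM : 0 ≤ x / ((f x).2.2.1 : ℝ) * vv (fun p => 2 / (p : ℝ)) (PP x a (f x).2.2.1) :=
      mul_nonneg (div_nonneg (by linarith) (Nat.cast_nonneg _))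
        (uni_vv x a w _ hw3 hok.pw 2 le_rfl)
    exact uni_fin _ _ _ _ _ _ hM (by positivity) he'0 he'1 he'e h1 hl
  filter_upwards [A1, A2] with x A1 A2
  exact ⟨fun i W b hok => A1 (i, W, b) hok, fun i j W b hok => A2 (i, j, W, b) hok⟩

end Pool.Agent.H1.PS
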